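import Pool.Agent.Run7.h311.OM.Chain
import Pool.Agent.Run7.h311.OM.One
import Pool.Agent.Q97.UM.Cv

set_option autoImplicit false

/-! The resonator as a product of blocks: fourth moment, and orthogonality to squares of primes. -/

namespace Run7.h311.OL

open Filter Topology MeasureTheory Complex
open Pool.Agent.Q97.UM Pool.Agent.Q14.UM Run7.h311.LW Run7.h311.OM

noncomputable section

theorem Fb_sqf {S : Finset ℕ} (hS : ∀ p ∈ S, p.Prime) (g : ℕ → ℂ) (μ : ℝ) : ∀ n, Fb S g μ n ≠ 0 → Squarefree n := by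
  intro n hn
  unfold Fb at hn
  by_cases h : n = 1
  · rw [h]
    exact squarefree_one
  · have h1 : dl n = 0 := by
      unfold dl
      exact if_neg h
    rw [h1, zero_add] at hn
    exact (hS n (sS_ne (right_ne_zero_of_mul hn))).squarefree

theorem Fb_four {S : Finset ℕ} {Z : ℕ} (hS : ∀ p ∈ S, p.Prime) (hZ1 : 1 ≤ Z) (hZ : ∀ p ∈ S, p ≤ Z) (g : ℕ → ℂ) {μ : ℝ}
    (hμ : μ = 1 + μ ^ 2 * ∑ p ∈ S, ‖g p‖ ^ 2 / (p : ℝ)) (M : ℕ) (hM1 : 1 ≤ M) (hZM : Z ≤ M) :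
    N2 M (cv (Fb S g μ) (Fb S g μ)) ≤ 2 * μ ^ 2 := by
  have hZ' : ∀ p ∈ S, p ≤ M := fun p hp => (hZ p hp).trans hZM
  obtain ⟨G, hG⟩ : ∃ G, G = ∑ p ∈ S, ‖g p‖ ^ 2 / (p : ℝ) := ⟨_, rfl⟩
  rw [← hG] at hμ
  have eG : N2 M (sS S g) = G := by rw [hG, N2_sS hS hZ']
  have d1 : ∀ n, dl n ≠ 0 → n ≠ 0 ∧ LW.om 0 n = 0 := fun n => dl_om
  have s1 : ∀ n, sS S g n ≠ 0 → n ≠ 0 ∧ LW.om 0 n = 1 := fun n => sS_om hS
  have c2 : ∀ n, cv (sS S g) (sS S g) n ≠ 0 → n ≠ 0 ∧ LW.om 0 n = 1 + 1 := cv_om s1 s1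
  have hdl0 : dl 0 = 0 := by unfold dl; simp
  have e1 : cv (Fb S g μ) (Fb S g μ) = fun n => dl n + ((2 * μ : ℝ) : ℂ) * sS S g n +
      ((μ ^ 2 : ℝ) : ℂ) * cv (sS S g) (sS S g) n := by
    have : Fb S g μ = fun n => dl n + (μ : ℂ) * sS S g n := rfl
    rw [this, cv_add_right, cv_smul_right, cv_add_left, cv_add_left, cv_smul_left, cv_smul_left, cv_comm dl (sS S g),
      cv_dl _ hdl0, cv_dl _ (sS_zero hS g)]
    funext n
    push_cast
    ring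
  rw [e1, N2_add, N2_add, N2_smul, N2_smul, ip_smul_right, ip_smul_right, ip_add_left, ip_smul_left, N2_dl hM1, eG,
    ip_om d1 s1 (by norm_num), ip_om d1 c2 (by norm_num), ip_om s1 c2 (by norm_num)]
  have h3 := N2_two hS hZ g g M
  rw [N2_sS hS hZ, ← hG] at h3
  have h4 : ‖((2 * μ : ℝ) : ℂ)‖ ^ 2 = 4 * μ ^ 2 := by
    rw [Complex.norm_real, Real.norm_eq_abs, sq_abs]
    ring
  have h5 : ‖((μ ^ 2 : ℝ) : ℂ)‖ ^ 2 = μ ^ 4 := by
    rw [Complex.norm_real, Real.norm_eq_abs, sq_abs]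
    ring
  rw [h4, h5]
  simp only [mul_zero, add_zero, Complex.zero_re]
  have h6 : μ ^ 4 * N2 M (cv (sS S g) (sS S g)) ≤ μ ^ 4 * (2 * G * G) := mul_le_mul_of_nonneg_left h3 (by positivity)
  have h7 : μ ^ 2 * G = μ - 1 := by linarith
  have h8 : 1 + 4 * μ ^ 2 * G + μ ^ 4 * (2 * G * G) = 1 + 4 * (μ ^ 2 * G) + 2 * (μ ^ 2 * G) ^ 2 := by ring
  rw [h7] at h8
  nlinarith

/-- orthogonality of the squares of primes and a squarefree resonator -/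
theorem sq_orth {P X M N : ℕ} {a r : ℕ → ℂ} (hr : ∀ n, r n ≠ 0 → Squarefree n) (hlen : ∀ n, M < n → r n = 0) :
    N2 N (cv (u2 P X a) r) ≤ N2 (X ^ 2) (u2 P X a) * N2 M r := by
  obtain ⟨S, hS⟩ : ∃ S, S = (bigP P X).image (fun p => p ^ 2) := ⟨_, rfl⟩
  have hSu : ∀ n, u2 P X a n ≠ 0 → n ∈ S := by
    intro n hn
    rw [hS]
    by_contra h
    apply hn
    unfold u2
    exact if_neg h
  have h1 := cv_bds (u2 P X a) r S hSu (fun s hs => by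
      rw [hS, Finset.mem_image] at hs
      obtain ⟨p, hp, rfl⟩ := hs
      exact Nat.one_le_pow _ _ (mem_bP.1 hp).1.pos) N M 1 zero_le_one (fun k hk hc => by
    have h2 : (S.filter (fun s => s ∣ k)).card ≤ 1 := by
      rw [Finset.card_le_one]
      unfold cv at hc
      obtain ⟨z, hz, hz1⟩ := Finset.exists_ne_zero_of_sum_ne_zero hc
      rw [Nat.mem_divisorsAntidiagonal] at hz
      have hzS := hSu z.1 (left_ne_zero_of_mul hz1)
      have hsq := hr z.2 (right_ne_zero_of_mul hz1)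
      rw [hS, Finset.mem_image] at hzS
      obtain ⟨p, hp, hpz⟩ := hzS
      have hpp := (mem_bP.1 hp).1
      have key : ∀ s ∈ S.filter (fun s => s ∣ k), s = z.1 := by
        intro s hs
        rw [Finset.mem_filter, hS, Finset.mem_image] at hs
        obtain ⟨⟨q, hq, hqs⟩, hsk⟩ := hs
        have hqp := (mem_bP.1 hq).1
        by_cases hqe : q = p
        · rw [← hqs, ← hpz, hqe]
        · exfalso
          have hcop : Nat.Coprime (q ^ 2) (p ^ 2) := Nat.Coprime.pow _ _ ((Nat.coprime_primes hqp hpp).2 hqe)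
          have hdvd : q ^ 2 ∣ p ^ 2 * z.2 := by
            have hsk' : q ^ 2 ∣ k := by rw [← hqs] at hsk; exact hsk
            have hpz' : p ^ 2 = z.1 := hpz
            rw [hpz', hz.1]
            exact hsk'
          have h3 : q ^ 2 ∣ z.2 := hcop.dvd_of_dvd_mul_left hdvd
          have h4 := hsq q (by rw [← sq]; exact h3)
          exact hqp.one_lt.ne' (Nat.isUnit_iff.1 h4)
      intro s hs s' hs'
      rw [key s hs, key s' hs']
    exact_mod_cast h2) hlen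
  rw [one_mul] at h1
  refine h1.trans (mul_le_mul_of_nonneg_right (le_of_eq ?_) (N2_nn _ _))
  unfold N2
  rw [hS]
  apply Finset.sum_subset (sq_sub P X)
  intro n _ hn
  unfold u2
  rw [if_neg hn]
  simp

open Classical in
/-- the products of the first factors -/
theorem chain_aux2 (hD : S_DPM) {Q : Finset ℕ} {Z : ℕ} (hQ : ∀ p ∈ Q, p.Prime) (hZ1 : 1 ≤ Z) (hZ : ∀ p ∈ Q, p ≤ Z)
    (g : ℕ → ℂ) (idx : ℕ → ℕ) (hG : ∀ i, ∑ p ∈ Q.filter (fun p => idx p = i), ‖g p‖ ^ 2 / (p : ℝ) ≤ 1 / 4) (k : ℕ) :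
    ∃ r : ℕ → ℂ, (∀ n, (Z ^ 2) ^ k < n → r n = 0) ∧ SP (fun p => p ∈ Q.filter (fun p => idx p < k)) r ∧
      1 ≤ N2 ((Z ^ 2) ^ k) r ∧ (∀ n, r n ≠ 0 → Squarefree n) ∧
      N2 ((Z ^ 2) ^ k * (Z ^ 2) ^ k) (cv r r) ≤ 2 ^ k * (N2 ((Z ^ 2) ^ k) r) ^ 2 ∧ ∀ a : ℕ → ℂ, (∀ p, ‖a p‖ ≤ 1) → ∃ e : ℕ → ℂ, (∀ n, (Z ^ 2) ^ k < n → e n = 0) ∧
        SP (fun p => p ∈ Q.filter (fun p => idx p < k)) e ∧
        (∀ t : ℝ, dp ((Z ^ 2) ^ k) e t = (dp Z (sS (Q.filter (fun p => idx p < k)) a) t -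
          mb (Q.filter (fun p => idx p < k)) a g) * dp ((Z ^ 2) ^ k) r t) ∧
        ip ((Z ^ 2) ^ k) e r = 0 ∧
        N2 ((Z ^ 2) ^ k) e ≤ 3 * (∑ p ∈ Q.filter (fun p => idx p < k), (1 : ℝ) / p) * N2 ((Z ^ 2) ^ k) r := by
  induction k with
  | zero =>
    refine ⟨dl, ?_, dl_SP _, ?_, ?_, ?_, ?_⟩
    · intro n hn
      rw [pow_zero] at hn
      unfold dl
      rw [if_neg (by omega)]
    · rw [pow_zero, N2_dl le_rfl]
    · intro n hn
      unfold dl at hn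
      have h1 : n = 1 := by
        by_contra h
        exact hn (if_neg h)
      rw [h1]
      exact squarefree_one
    · rw [pow_zero, cv_dl dl (by unfold dl; simp), N2_dl le_rfl, N2_dl (by norm_num)]
      norm_num
    · intro a _
      have h0 : Q.filter (fun p => idx p < 0) = ∅ := by
        rw [Finset.filter_eq_empty_iff]
        intro p _
        omega
      refine ⟨fun _ => 0, fun _ _ => rfl, SP_zero _, ?_, ip_zero_left _ _, ?_⟩
      · intro t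
        rw [h0, dp_zero']
        unfold mb
        have : dp Z (sS ∅ a) t = 0 := by
          unfold dp sS
          simp
        rw [this]
        simp
      · rw [h0]
        unfold N2
        simp
  | succ k ih =>
    obtain ⟨r, hr1, hr2, hr3, hrsq, hr44, hr4⟩ := ih
    obtain ⟨A, hA⟩ : ∃ A : Finset ℕ, A = Q.filter (fun p => idx p < k) := ⟨_, rfl⟩
    obtain ⟨B, hB⟩ : ∃ B : Finset ℕ, B = Q.filter (fun p => idx p = k) := ⟨_, rfl⟩
    have hGk := hG k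
    rw [← hA] at hr2 hr4
    rw [← hB] at hGk
    have hAB : Q.filter (fun p => idx p < k + 1) = A ∪ B := by
      rw [hA, hB, ← Finset.filter_or]
      refine Finset.filter_congr fun p _ => ?_
      omega
    have hdis : Disjoint A B := by
      rw [hA, hB, Finset.disjoint_filter]
      intro p _ h1 h2
      omega
    rw [hAB]
    have hBp : ∀ p ∈ B, p.Prime := fun p hp => hQ p (by rw [hB] at hp; exact (Finset.mem_filter.1 hp).1)
    have hBZ : ∀ p ∈ B, p ≤ Z := fun p hp => hZ p (by rw [hB] at hp; exact (Finset.mem_filter.1 hp).1)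
    obtain ⟨μ, hμ1, hμ2, hμ3⟩ := mu_ex (by positivity) hGk
    have hnotB : ∀ p, p ∈ A → ¬ p ∈ B := fun p h1 h2 => Finset.disjoint_left.1 hdis h1 h2
    have hrB : SP (fun p => ¬ p ∈ B) r := SP_mono hnotB hr2
    have hZZ : Z ≤ Z ^ 2 := Nat.le_self_pow (by norm_num) Z
    have hFlen : ∀ n, Z ^ 2 < n → Fb B g μ n = 0 := fun n hn => Fb_len hZ1 hBZ g μ n (by omega)
    have hFSP := Fb_SP hBp g μ
    have hlen : (Z ^ 2) ^ (k + 1) = Z ^ 2 * (Z ^ 2) ^ k := by rw [pow_succ]; ring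
    have hF := blk hBp hZ1 hBZ (fun _ => 0) g (fun _ => by simp) hμ3 hμ2
    have hNr : N2 (Z ^ 2 * (Z ^ 2) ^ k) (cv (Fb B g μ) r) = μ * N2 ((Z ^ 2) ^ k) r := by
      rw [N2_cv hFSP hrB hFlen hr1 le_rfl, hF.1]
    rw [hlen]
    refine ⟨cv (Fb B g μ) r, cv_len _ _ _ _ hFlen hr1, ?_, ?_, ?_, ?_, ?_⟩
    · exact SP_cv _ _ _ (SP_mono (fun p hp => Finset.mem_union_right _ hp) hFSP)
        (SP_mono (fun p hp => Finset.mem_union_left _ hp) hr2)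
    · rw [hNr]
      nlinarith
    · intro n hn
      unfold cv at hn
      obtain ⟨z, hz, h1⟩ := Finset.exists_ne_zero_of_sum_ne_zero hn
      rw [Nat.mem_divisorsAntidiagonal] at hz
      have h2 := left_ne_zero_of_mul h1
      have h3 := right_ne_zero_of_mul h1
      rw [← hz.1, Nat.squarefree_mul (cop_SP hFSP hrB h2 h3)]
      exact ⟨Fb_sqf hBp g μ z.1 h2, hrsq z.2 h3⟩
    · have e1 : cv (cv (Fb B g μ) r) (cv (Fb B g μ) r) = cv (cv (Fb B g μ) (Fb B g μ)) (cv r r) := by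
        rw [cv_assoc, cv_assoc, cv_left_comm r]
      have hF2len := cv_len _ _ _ _ hFlen hFlen
      have hr2len := cv_len _ _ _ _ hr1 hr1
      rw [e1, hNr, N2_cv (SP_cv _ _ _ hFSP hFSP) (SP_cv _ _ _ hrB hrB) hF2len hr2len (by
        apply le_of_eq
        ring)]
      have h5 := Fb_four hBp hZ1 hBZ g hμ3 (Z ^ 2 * Z ^ 2) (Nat.one_le_iff_ne_zero.2 (by positivity)) (by nlinarith)
      have h6 : 0 ≤ N2 (Z ^ 2 * Z ^ 2) (cv (Fb B g μ) (Fb B g μ)) := N2_nn _ _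
      have h7 : 0 ≤ N2 ((Z ^ 2) ^ k * (Z ^ 2) ^ k) (cv r r) := N2_nn _ _
      calc N2 (Z ^ 2 * Z ^ 2) (cv (Fb B g μ) (Fb B g μ)) * N2 ((Z ^ 2) ^ k * (Z ^ 2) ^ k) (cv r r) ≤
          (2 * μ ^ 2) * (2 ^ k * (N2 ((Z ^ 2) ^ k) r) ^ 2) := by gcongr
        _ = 2 ^ (k + 1) * (μ * N2 ((Z ^ 2) ^ k) r) ^ 2 := by ring
    · intro a ha
      obtain ⟨e, he1, he2, he3, he4, he5⟩ := hr4 a ha
      have heB : SP (fun p => ¬ p ∈ B) e := SP_mono hnotB he2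
      obtain ⟨hb1, hb2, hb3⟩ := blk hBp hZ1 hBZ a g ha hμ3 hμ2
      have hHlen := Hb_len hZ1 hBZ a g μ
      have hHSP := Hb_SP hBp a g μ
      refine ⟨fun n => cv (Fb B g μ) e n + cv (Hb B a g μ) r n, ?_, ?_, ?_, ?_, ?_⟩
      · intro n hn
        change cv (Fb B g μ) e n + cv (Hb B a g μ) r n = 0
        rw [cv_len _ _ _ _ hFlen he1 n hn, cv_len _ _ _ _ hHlen hr1 n hn, add_zero]
      · exact SP_add (SP_cv _ _ _ (SP_mono (fun p hp => Finset.mem_union_right _ hp) hFSP)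
          (SP_mono (fun p hp => Finset.mem_union_left _ hp) he2))
          (SP_cv _ _ _ (SP_mono (fun p hp => Finset.mem_union_right _ hp) hHSP)
          (SP_mono (fun p hp => Finset.mem_union_left _ hp) hr2))
      · intro t
        rw [dp_add', ← hD.1 _ _ _ _ t hFlen he1, ← hD.1 _ _ _ _ t hHlen hr1, ← hD.1 _ _ _ _ t hFlen hr1, he3 t,
          dp_Hb hD hZ1 hBZ]
        have e1 : dp Z (sS (A ∪ B) a) t = dp Z (sS A a) t + dp Z (sS B a) t := by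
          rw [← dp_add']
          congr 1
          funext n
          exact sS_union hdis a n
        have e2 : mb (A ∪ B) a g = mb A a g + mb B a g := by
          unfold mb
          exact Finset.sum_union hdis
        rw [e1, e2]
        ring
      · rw [ip_add_left, ip_cv hFSP heB hFSP hrB hFlen he1 le_rfl, ip_cv hHSP hrB hFSP hrB hHlen hr1 le_rfl, he4, hb2]
        simp
      · have h1 : N2 (Z ^ 2 * (Z ^ 2) ^ k) (fun n => cv (Fb B g μ) e n + cv (Hb B a g μ) r n) =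
            μ * N2 ((Z ^ 2) ^ k) e + N2 (Z ^ 2) (Hb B a g μ) * N2 ((Z ^ 2) ^ k) r := by
          rw [N2_add, N2_cv hFSP heB hFlen he1 le_rfl, N2_cv hHSP hrB hHlen hr1 le_rfl,
            ip_cv hFSP heB hHSP hrB hFlen he1 le_rfl, he4, hb1]
          simp
        rw [h1, hNr, Finset.sum_union hdis]
        have h2 : 0 ≤ N2 ((Z ^ 2) ^ k) r := N2_nn _ _
        have h3 : 0 ≤ ∑ p ∈ B, (1 : ℝ) / p := by positivity
        have h4 : μ * N2 ((Z ^ 2) ^ k) e ≤ μ * (3 * (∑ p ∈ A, (1 : ℝ) / p) * N2 ((Z ^ 2) ^ k) r) :=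
          mul_le_mul_of_nonneg_left he5 (by linarith)
        have h5 : N2 (Z ^ 2) (Hb B a g μ) * N2 ((Z ^ 2) ^ k) r ≤ 3 * (∑ p ∈ B, (1 : ℝ) / p) * N2 ((Z ^ 2) ^ k) r :=
          mul_le_mul_of_nonneg_right hb3 h2
        have h6 : 3 * (∑ p ∈ B, (1 : ℝ) / p) * N2 ((Z ^ 2) ^ k) r ≤
            μ * (3 * (∑ p ∈ B, (1 : ℝ) / p) * N2 ((Z ^ 2) ^ k) r) :=
          le_mul_of_one_le_left (by positivity) hμ1
        calc μ * N2 ((Z ^ 2) ^ k) e + N2 (Z ^ 2) (Hb B a g μ) * N2 ((Z ^ 2) ^ k) r ≤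
            μ * (3 * (∑ p ∈ A, (1 : ℝ) / p) * N2 ((Z ^ 2) ^ k) r) +
              μ * (3 * (∑ p ∈ B, (1 : ℝ) / p) * N2 ((Z ^ 2) ^ k) r) := by linarith
          _ = _ := by ring

open Classical in
/-- the resonator -/
theorem chain2 (hD : S_DPM) {Q : Finset ℕ} {Z K : ℕ} (hQ : ∀ p ∈ Q, p.Prime) (hZ1 : 1 ≤ Z) (hZ : ∀ p ∈ Q, p ≤ Z)
    (g : ℕ → ℂ) (idx : ℕ → ℕ) (hidx : ∀ p ∈ Q, idx p < K)
    (hG : ∀ i, ∑ p ∈ Q.filter (fun p => idx p = i), ‖g p‖ ^ 2 / (p : ℝ) ≤ 1 / 4) :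
    ∃ r : ℕ → ℂ, (∀ n, (Z ^ 2) ^ K < n → r n = 0) ∧ SP (fun p => p ∈ Q) r ∧
      1 ≤ N2 ((Z ^ 2) ^ K) r ∧ (∀ n, r n ≠ 0 → Squarefree n) ∧
      N2 ((Z ^ 2) ^ K * (Z ^ 2) ^ K) (cv r r) ≤ 2 ^ K * (N2 ((Z ^ 2) ^ K) r) ^ 2 ∧ ∀ a : ℕ → ℂ, (∀ p, ‖a p‖ ≤ 1) → ∃ e : ℕ → ℂ, (∀ n, (Z ^ 2) ^ K < n → e n = 0) ∧
        SP (fun p => p ∈ Q) e ∧
        (∀ t : ℝ, dp ((Z ^ 2) ^ K) e t = (dp Z (sS Q a) t - mb Q a g) * dp ((Z ^ 2) ^ K) r t) ∧
        N2 ((Z ^ 2) ^ K) e ≤ 3 * (∑ p ∈ Q, (1 : ℝ) / p) * N2 ((Z ^ 2) ^ K) r := by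
  obtain ⟨r, h1, h2, h3, h5, h6, h4⟩ := chain_aux2 hD hQ hZ1 hZ g idx hG K
  have hf : Q.filter (fun p => idx p < K) = Q := by
    rw [Finset.filter_eq_self]
    exact hidx
  rw [hf] at h2 h4
  refine ⟨r, h1, h2, h3, h5, h6, fun a ha => ?_⟩
  obtain ⟨e, e1, e2, e3, -, e5⟩ := h4 a ha
  exact ⟨e, e1, e2, e3, e5⟩

end

end Run7.h311.OL
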