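import Pool.Agent.Run7.h311.OA.CoreC
import Pool.Agent.Run7.h311.OL.ChainQ

set_option autoImplicit false

/-! The resonator for several shifts with prescribed complex means of any size. -/

namespace Run7.h311.OL

open Filter Topology MeasureTheory Complex
open Pool.Agent.Q97.UM Pool.Agent.Q14.UM Run7.h311.LW Run7.h311.OM Run7.h311.OA

noncomputable section

/-- a diagonally dominant system, sharper bound -/
theorem solve_c2 {n : ℕ} (M : Matrix (Fin n) (Fin n) ℂ) {C V B : ℝ} (hC : 0 ≤ C) (hd : ∀ j, V ≤ ‖M j j‖)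
    (ho : ∀ j l, j ≠ l → ‖M j l‖ ≤ C) (hV : 2 * (n * C) + 1 ≤ V) (x : Fin n → ℂ) (hB : 0 ≤ B) (hx : ∀ j, ‖x j‖ ≤ B) :
    ∃ β : Fin n → ℂ, (∀ j, ∑ l, M j l * β l = x j) ∧ ∀ l, ‖β l‖ ≤ 2 * B / V := by
  have hnC : 0 ≤ n * C := by positivity
  have hV0 : 0 < V := by linarith
  obtain ⟨s, hs⟩ : ∃ s : ℝ, s = 2 / V := ⟨_, rfl⟩
  have hs0 : 0 < s := by rw [hs]; positivity
  have hsn : ‖(s : ℂ)‖ = s := by rw [Complex.norm_real, Real.norm_eq_abs, abs_of_pos hs0]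
  obtain ⟨β, h1, h2⟩ := solve_c (fun j l => (s : ℂ) * M j l) (C := s * C) (V := 2) (B := s * B) (by positivity)
    (fun j => by
      rw [norm_mul, hsn]
      calc (2 : ℝ) = s * V := by rw [hs]; field_simp
        _ ≤ s * ‖M j j‖ := mul_le_mul_of_nonneg_left (hd j) hs0.le)
    (fun j l hjl => by
      rw [norm_mul, hsn]
      exact mul_le_mul_of_nonneg_left (ho j l hjl) hs0.le)
    (by
      have : n * (s * C) ≤ 1 := by
        have e : n * (s * C) = 2 * (n * C) / V := by rw [hs]; ring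
        rw [e, div_le_one hV0]
        linarith
      linarith) (fun j => (s : ℂ) * x j) (by positivity) (fun j => by
      rw [norm_mul, hsn]
      exact mul_le_mul_of_nonneg_left (hx j) hs0.le)
  refine ⟨β, ?_, ?_⟩
  · intro j
    have h3 := h1 j
    have h4 : (s : ℂ) * ∑ l, M j l * β l = (s : ℂ) * x j := by
      rw [← h3, Finset.mul_sum]
      refine Finset.sum_congr rfl fun l _ => ?_
      ring
    have hsc : (s : ℂ) ≠ 0 := by exact_mod_cast hs0.ne'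
    exact mul_left_cancel₀ hsc h4
  · intro l
    refine (h2 l).trans (le_of_eq ?_)
    rw [hs]
    ring

open Classical in
/-- the resonator with prescribed means -/
theorem core2 (n : ℕ) {κ A : ℝ} (hκ : 0 < κ) : ∃ K₀ : ℕ, 3 ≤ K₀ ∧
    ∀ᶠ T : ℝ in atTop, ∀ (α : Fin n → ℝ) (x : Fin n → ℂ) (B : ℝ) (K' : ℕ), K₀ ≤ K' → 0 ≤ B → B ^ 2 ≤ Real.log T →
      (∀ i j, i ≠ j → κ / Real.log (Real.log T) ≤ |α i - α j| ∧ |α i - α j| ≤ A) →
      (∀ j, ‖x j‖ ≤ B) →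
      ∃ (M K : ℕ) (r : ℕ → ℂ), (K : ℝ) ≤ 64 * n ^ 2 * B ^ 2 / Real.log K' + 1 ∧
        M = (⌊(Real.log T ^ 2) ^ K'⌋₊ ^ 2) ^ K ∧ (∀ m, M < m → r m = 0) ∧
        SP (fun p => p ∈ bigP ⌊Real.log T ^ 2⌋₊ ⌊(Real.log T ^ 2) ^ K'⌋₊) r ∧ 1 ≤ N2 M r ∧
        (∀ m, r m ≠ 0 → Squarefree m) ∧ N2 (M * M) (cv r r) ≤ 2 ^ K * (N2 M r) ^ 2 ∧
        ∀ j, ∃ e : ℕ → ℂ, (∀ m, M < m → e m = 0) ∧
          SP (fun p => p ∈ bigP ⌊Real.log T ^ 2⌋₊ ⌊(Real.log T ^ 2) ^ K'⌋₊) e ∧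
          (∀ t : ℝ, dp M e t = (dp ⌊(Real.log T ^ 2) ^ K'⌋₊
            (sS (bigP ⌊Real.log T ^ 2⌋₊ ⌊(Real.log T ^ 2) ^ K'⌋₊) (aj (α j))) t - x j) * dp M r t) ∧
          N2 M e ≤ 3 * (∑ p ∈ bigP ⌊Real.log T ^ 2⌋₊ ⌊(Real.log T ^ 2) ^ K'⌋₊, (1 : ℝ) / p) * N2 M r := by
  have hD := Pool.Agent.Q84.UM.t_DPM
  obtain ⟨C₁, y₁, hC₁, hosc⟩ := osc_c (A := A) hκ
  obtain ⟨C₂, y₂, hC₂, hmer⟩ := mer
  obtain ⟨K₀, hK₀⟩ := exists_nat_ge (Real.exp (4 * (n * C₁) + 4 + 2 * C₂))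
  refine ⟨max K₀ 3, le_max_right _ _, ?_⟩
  have tL : Tendsto Real.log atTop atTop := Real.tendsto_log_atTop
  have tLL : Tendsto (fun T => Real.log (Real.log T)) atTop atTop := tL.comp tL
  have tL2 : Tendsto (fun T : ℝ => Real.log T ^ 2) atTop atTop := (tendsto_pow_atTop (by norm_num)).comp tL
  filter_upwards [tL2.eventually_ge_atTop y₁, tL2.eventually_ge_atTop y₂, tL.eventually_ge_atTop 3,
    tLL.eventually_ge_atTop 1, tL.eventually_ge_atTop (32 * n ^ 2),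
    eventually_gt_atTop (1 : ℝ)] with T hy₁ hy₂ hL3 hLL1 hLbig hT1 α x B K' hK'K hB0 hB2 hα hx
  have hK'n : 1 ≤ K' := by
    have := (le_max_right K₀ 3).trans hK'K
    omega
  have hK'1 : (1 : ℝ) ≤ K' := by exact_mod_cast hK'n
  have hK'0 : (0 : ℝ) < K' := by linarith
  have hlK : 4 * (n * C₁) + 4 + 2 * C₂ ≤ Real.log K' := by
    rw [Real.le_log_iff_exp_le hK'0]
    refine hK₀.trans ?_
    exact_mod_cast (le_max_left K₀ 3).trans hK'K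
  have hnC : 0 ≤ n * C₁ := by positivity
  have hlK0 : 0 < Real.log K' := by linarith
  have hT0 : 0 < T := by linarith
  obtain ⟨L, hLd⟩ : ∃ L, L = Real.log T := ⟨_, rfl⟩
  obtain ⟨l, hld⟩ : ∃ l, l = Real.log L := ⟨_, rfl⟩
  rw [← hLd] at hy₁ hy₂ hL3 hLL1 hLbig hB2 hα ⊢
  rw [← hld] at hLL1 hα
  have hL0 : 0 < L := by linarith
  obtain ⟨y, hy⟩ : ∃ y, y = L ^ 2 := ⟨_, rfl⟩
  obtain ⟨Z, hZ⟩ : ∃ Z, Z = y ^ K' := ⟨_, rfl⟩
  rw [← hy] at hy₁ hy₂ ⊢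
  rw [← hZ]
  have hyg : 1 < y := by rw [hy]; nlinarith
  have hyZ : y ≤ Z := by
    rw [hZ]
    exact le_self_pow₀ hyg.le (by omega)
  have hlogy : Real.log y = 2 * l := by
    rw [hy, Real.log_pow, hld]
    norm_num
  have hlogZ : Real.log Z = K' * (2 * l) := by
    rw [hZ, Real.log_pow, hlogy]
  obtain ⟨Q, hQ⟩ : ∃ Q, Q = bigP ⌊y⌋₊ ⌊Z⌋₊ := ⟨_, rfl⟩
  rw [← hQ]
  have hQp : ∀ p ∈ Q, p.Prime := fun p hp => by rw [hQ] at hp; exact (mem_bP.1 hp).1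
  have hQZ : ∀ p ∈ Q, p ≤ ⌊Z⌋₊ := fun p hp => by rw [hQ] at hp; exact (mem_bP.1 hp).2.2
  have hQy : ∀ p ∈ Q, y < p := fun p hp => by
    rw [hQ] at hp
    exact (Nat.floor_lt (by linarith)).1 (mem_bP.1 hp).2.1
  have hZ1 : 1 ≤ ⌊Z⌋₊ := Nat.le_floor (by push_cast; linarith)
  -- the mass of Q
  have hmass := hmer y Z hy₂ hyZ
  rw [← hQ, hlogZ, hlogy, Real.log_mul hK'0.ne' (by linarith)] at hmass
  have hm := abs_le.1 hmass
  obtain ⟨mass, hms⟩ : ∃ mass, mass = ∑ p ∈ Q, (1 : ℝ) / p := ⟨_, rfl⟩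
  rw [← hms] at hm
  have hVlow : 2 * (n * C₁) + 1 ≤ mass := by linarith [hm.1]
  have hVlow2 : 1 / 2 * Real.log K' ≤ mass := by linarith [hm.1]
  have hms0 : 0 < mass := by linarith
  -- the system
  have hl0 : 0 < l := by linarith
  obtain ⟨β, hβ1, hβ2⟩ := solve_c2 (fun j l' : Fin n => ∑ p ∈ Q, (p : ℂ) ^ (-(((α j - α l' : ℝ) : ℂ) * I)) / p) hC₁
    (V := mass)
    (fun j => by
      rw [hms]
      have e1 : (∑ p ∈ Q, (p : ℂ) ^ (-(((α j - α j : ℝ) : ℂ) * I)) / p) = ((∑ p ∈ Q, (1 : ℝ) / p : ℝ) : ℂ) := by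
        push_cast
        refine Finset.sum_congr rfl fun p _ => ?_
        simp
      rw [e1, Complex.norm_real]
      exact le_abs_self _) (fun j l' hjl => by
      rw [hQ]
      refine hosc y Z hy₁ hyZ _ (le_trans ?_ (hα j l' hjl).1) (hα j l' hjl).2
      rw [hlogy]
      exact div_le_div_of_nonneg_left hκ.le (by linarith) (by linarith)) hVlow x hB0 hx
  obtain ⟨g, hg⟩ : ∃ g, g = apc (fun l => (starRingEnd ℂ) (β l)) α := ⟨_, rfl⟩
  obtain ⟨b, hb⟩ : ∃ b, b = 2 * B / mass := ⟨_, rfl⟩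
  have hb0 : 0 ≤ b := by rw [hb]; positivity
  rw [← hb] at hβ2
  have hgB : ∀ p, ‖g p‖ ≤ n * b := by
    intro p
    rw [hg]
    exact apc_le _ α hb0 (fun l => by rw [RCLike.norm_conj]; exact hβ2 l) p
  have hgu : ∀ p ∈ Q, ‖g p‖ ^ 2 / (p : ℝ) ≤ (n * b) ^ 2 * (1 / p) := by
    intro p _
    rw [mul_one_div]
    have := pow_le_pow_left₀ (norm_nonneg _) (hgB p) 2
    gcongr
  have hnn : (0 : ℝ) ≤ n := Nat.cast_nonneg n
  have hb2 : b ≤ 2 * B := by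
    rw [hb]
    exact div_le_self (by linarith) (by linarith)
  obtain ⟨idx, hi1, hi2⟩ := blocks Q (fun p => ‖g p‖ ^ 2 / (p : ℝ)) (h := 1 / 4) (by norm_num) (fun p => by positivity)
    (fun p hp => by
      refine (hgu p hp).trans ?_
      have hp1 : y < p := hQy p hp
      have hp0 : (0 : ℝ) < p := by linarith
      rw [mul_one_div, div_le_iff₀ hp0, mul_pow]
      have h1 : (n : ℝ) ^ 2 * b ^ 2 ≤ n ^ 2 * (4 * L) := by
        have h2 : b ^ 2 ≤ (2 * B) ^ 2 := pow_le_pow_left₀ hb0 hb2 2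
        have h3 : (2 * B) ^ 2 ≤ 4 * L := by
          calc (2 * B) ^ 2 = 4 * B ^ 2 := by ring
            _ ≤ 4 * L := by linarith
        exact mul_le_mul_of_nonneg_left (h2.trans h3) (by positivity)
      have h2 : (n : ℝ) ^ 2 * (4 * L) ≤ 1 / 8 * y := by
        rw [hy]
        have : 32 * n ^ 2 * L ≤ L * L := mul_le_mul_of_nonneg_right hLbig hL0.le
        nlinarith
      linarith)
  obtain ⟨K, hK⟩ : ∃ K : ℕ, K = ⌊8 * ((n * b) ^ 2 * mass)⌋₊ + 1 := ⟨_, rfl⟩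
  have hsumu : ∑ p ∈ Q, ‖g p‖ ^ 2 / (p : ℝ) ≤ (n * b) ^ 2 * mass := by
    refine (Finset.sum_le_sum hgu).trans ?_
    rw [← Finset.mul_sum, hms]
  have hidx : ∀ p ∈ Q, idx p < K := by
    intro p hp
    have h1 := hi1 p hp
    have h2 : (idx p : ℝ) ≤ 8 * ((n * b) ^ 2 * mass) := by
      have h3 : 2 / (1 / 4 : ℝ) * ∑ p ∈ Q, ‖g p‖ ^ 2 / (p : ℝ) ≤ 8 * ((n * b) ^ 2 * mass) := by
        have h4 : 2 / (1 / 4 : ℝ) = 8 := by norm_num
        rw [h4]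
        linarith
      exact h1.trans h3
    rw [hK]
    exact Nat.lt_succ_of_le (Nat.le_floor h2)
  obtain ⟨r, hr1, hr2, hr3, hrsq, hr44, hr4⟩ := chain2 hD hQp hZ1 hQZ g idx hidx hi2
  refine ⟨(⌊Z⌋₊ ^ 2) ^ K, K, r, ?_, rfl, hr1, hr2, hr3, hrsq, hr44, ?_⟩
  · have hKle : (K : ℝ) ≤ 8 * ((n * b) ^ 2 * mass) + 1 := by
      rw [hK]
      push_cast
      have := Nat.floor_le (show 0 ≤ 8 * ((n * b) ^ 2 * mass) by positivity)
      linarith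
    refine hKle.trans ?_
    have h1 : 8 * ((n * b) ^ 2 * mass) = 32 * n ^ 2 * B ^ 2 * (1 / mass) := by
      rw [hb]
      field_simp
      ring
    have h2 : 1 / mass ≤ 2 / Real.log K' := by
      rw [div_le_div_iff₀ hms0 hlK0]
      linarith
    have h3 : 32 * n ^ 2 * B ^ 2 * (1 / mass) ≤ 32 * n ^ 2 * B ^ 2 * (2 / Real.log K') :=
      mul_le_mul_of_nonneg_left h2 (by positivity)
    have h4 : 32 * n ^ 2 * B ^ 2 * (2 / Real.log K') = 64 * n ^ 2 * B ^ 2 / Real.log K' := by ring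
    linarith
  · intro j
    obtain ⟨e, he1, he2, he3, he4⟩ := hr4 (aj (α j)) (aj_le (α j))
    have hmb : mb Q (aj (α j)) g = x j := by
      rw [← hβ1 j]
      unfold mb
      rw [hg]
      have h1 : ∀ p ∈ Q, aj (α j) p * (starRingEnd ℂ) (apc (fun l => (starRingEnd ℂ) (β l)) α p) / p =
          ∑ l, β l * ((p : ℂ) ^ (-(((α j - α l : ℝ) : ℂ) * I)) / p) := fun p hp => c_mul β α (α j) (hQp p hp).pos
      rw [Finset.sum_congr rfl h1, Finset.sum_comm]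
      refine Finset.sum_congr rfl fun l' _ => ?_
      rw [← Finset.mul_sum, mul_comm]
    rw [hmb] at he3
    exact ⟨e, he1, he2, he3, he4⟩

end

end Run7.h311.OL
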