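import Pool.Agent.Run7.h311.OA.OneC
import Pool.Agent.Run7.h311.OL.Core2

set_option autoImplicit false

/-! One shifted value, relative to the resonator times a polynomial on small primes: deviations of any size. -/

namespace Run7.h311.OL

open Filter Topology MeasureTheory Complex
open Pool.Agent.Q97.UM Pool.Agent.Q14.UM Run7.h311.LW Run7.h311.OM Run7.h311.OA
open Pool.Agent.Q98.UM (S3 S3_nonneg)
open Pool.Agent.Run7.h74.AE (az EA)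

noncomputable section

/-- the majorant of the deviation -/
def gk2 (Δ : ℝ → ℝ) (l α : ℝ) (z : ℂ) (P Y W X : ℕ) (t : ℝ) : ℝ :=
  |Δ (t + α)| + (12 * S3 + 6 * l) + 1 / l * (‖dp Y (uu P Y (aj α)) t‖ ^ 2 +
    ‖dp (Y ^ 2) (u2 P Y (aj (2 * α))) t‖ ^ 2 + ‖dp W (uu Y W (aj α)) t - z‖ ^ 2 + ‖dp X (uu W X (aj α)) t‖ ^ 2 +
    ‖dp (X ^ 2) (u2 W X (aj (2 * α))) t‖ ^ 2 + ‖dp (W ^ 2) (u2 Y W (aj (2 * α))) t‖ ^ 2)

/-- the majorant, logarithm of the modulus -/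
theorem gl_ge {l α : ℝ} (hl : 0 < l) (z : ℂ) {P Y W X : ℕ} (h1 : P ≤ Y) (h2 : Y ≤ W) (h3 : W ≤ X) (t : ℝ) :
    |Real.log ‖zt (t + α)‖ - EP P (t + α) - z.re| ≤
      gk2 (fun s => Real.log ‖zt s‖ - EP X s) l α z P Y W X t := by
  have e1 := abs_le.1 (EP_one α h1 t)
  have e2 := abs_le.1 (EP_one α h2 t)
  have e3 := abs_le.1 (EP_one α h3 t)
  have b1 := abs_le.1 ((Complex.abs_re_le_norm (dp Y (uu P Y (aj α)) t)).trans (amgm hl))
  have b2 := abs_le.1 ((Complex.abs_re_le_norm (dp (Y ^ 2) (u2 P Y (aj (2 * α))) t)).trans (amgm hl))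
  have b3 := abs_le.1 ((Complex.abs_re_le_norm (dp W (uu Y W (aj α)) t - z)).trans (amgm hl))
  rw [Complex.sub_re] at b3
  have b4 := abs_le.1 ((Complex.abs_re_le_norm (dp (W ^ 2) (u2 Y W (aj (2 * α))) t)).trans (amgm hl))
  have b5 := abs_le.1 ((Complex.abs_re_le_norm (dp X (uu W X (aj α)) t)).trans (amgm hl))
  have b6 := abs_le.1 ((Complex.abs_re_le_norm (dp (X ^ 2) (u2 W X (aj (2 * α))) t)).trans (amgm hl))
  have b7 := abs_le.1 (le_refl |Real.log ‖zt (t + α)‖ - EP X (t + α)|)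
  unfold gk2
  rw [abs_le]
  constructor
  · linarith [e1.1, e2.1, e3.1, e1.2, e2.2, e3.2, b1.1, b2.1, b3.1, b4.1, b5.1, b6.1, b7.1]
  · linarith [e1.1, e2.1, e3.1, e1.2, e2.2, e3.2, b1.2, b2.2, b3.2, b4.2, b5.2, b6.2, b7.2]

/-- the majorant, argument -/
theorem ga_ge {l α : ℝ} (hl : 0 < l) (z : ℂ) {P Y W X : ℕ} (h1 : P ≤ Y) (h2 : Y ≤ W) (h3 : W ≤ X) (t : ℝ) :
    |az (t + α) - EA P (t + α) - z.im| ≤ gk2 (fun s => az s - EA X s) l α z P Y W X t := by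
  have e1 := abs_le.1 (EA_one α h1 t)
  have e2 := abs_le.1 (EA_one α h2 t)
  have e3 := abs_le.1 (EA_one α h3 t)
  have b1 := abs_le.1 ((Complex.abs_im_le_norm (dp Y (uu P Y (aj α)) t)).trans (amgm hl))
  have b2 := abs_le.1 ((Complex.abs_im_le_norm (dp (Y ^ 2) (u2 P Y (aj (2 * α))) t)).trans (amgm hl))
  have b3 := abs_le.1 ((Complex.abs_im_le_norm (dp W (uu Y W (aj α)) t - z)).trans (amgm hl))
  rw [Complex.sub_im] at b3
  have b4 := abs_le.1 ((Complex.abs_im_le_norm (dp (W ^ 2) (u2 Y W (aj (2 * α))) t)).trans (amgm hl))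
  have b5 := abs_le.1 ((Complex.abs_im_le_norm (dp X (uu W X (aj α)) t)).trans (amgm hl))
  have b6 := abs_le.1 ((Complex.abs_im_le_norm (dp (X ^ 2) (u2 W X (aj (2 * α))) t)).trans (amgm hl))
  have b7 := abs_le.1 (le_refl |az (t + α) - EA X (t + α)|)
  unfold gk2
  rw [abs_le]
  constructor
  · linarith [e1.1, e2.1, e3.1, e1.2, e2.2, e3.2, b1.1, b2.1, b3.1, b4.1, b5.1, b6.1, b7.1]
  · linarith [e1.1, e2.1, e3.1, e1.2, e2.2, e3.2, b1.2, b2.2, b3.2, b4.2, b5.2, b6.2, b7.2]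

/-- the mean of the majorant -/
theorem gk2_int {Δ : ℝ → ℝ} {T l α C₀ C₁ C₂ : ℝ} (hT : 16 ≤ T) (hl : 1 ≤ l) (hα : |α| ≤ T / 2) (z : ℂ) {P Y W X M N : ℕ}
    (h2 : Y ≤ W) (hWX : W ≤ X) (hTHP : ∀ b : ℕ → ℂ,
      IntervalIntegrable (fun t => |Δ t| ^ 1 * ‖dp (M * N) b t‖ ^ 2) volume (T / 2) (4 * T) ∧
      ∫ t in (T / 2)..(4 * T), |Δ t| ^ 1 * ‖dp (M * N) b t‖ ^ 2 ≤ C₀ * T * N2 (M * N) b)
    {r e b : ℕ → ℂ} (hr : ∀ m, M < m → r m = 0) (hrS : SP (fun p => p ∈ bigP Y W) r) (he : ∀ m, M < m → e m = 0)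
    (heS : SP (fun p => p ∈ bigP Y W) e) (hde : ∀ t : ℝ, dp M e t = (dp W (uu Y W (aj α)) t - z) * dp M r t)
    (hrsq : ∀ m, r m ≠ 0 → Squarefree m) (hNe : N2 M e ≤ C₁ * l ^ 2 * N2 M r) (hb : Bs P N b) (hPY : P ≤ Y)
    (hlen : ((X ^ 2 * (M * N) : ℕ) : ℝ) ≤ T ^ (1 / 4 : ℝ)) (hYX : Y ≤ X)
    (hall : ∀ P' X' : ℕ, X' ≤ X → ∑ p ∈ bigP P' X', (1 : ℝ) / p ≤ C₂ * l ^ 2) (hX1 : 1 ≤ X) :
    IntervalIntegrable (fun t => gk2 Δ l α z P Y W X t * ‖dp (M * N) (cv r b) t‖ ^ 2) volume T (2 * T) ∧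
    ∫ t in T..(2 * T), gk2 Δ l α z P Y W X t * ‖dp (M * N) (cv r b) t‖ ^ 2 ≤
      (C₀ + 2 * (12 * S3 + 6) + 2 * (2 * C₂ + |C₁| + 2)) * l * (T * N2 (M * N) (cv r b)) := by
  have hD := Pool.Agent.Q84.UM.t_DPM
  have hS3 := S3_nonneg
  have hl0 : 0 < l := by linarith
  obtain ⟨f, hf⟩ : ∃ f, f = cv r b := ⟨_, rfl⟩
  have hbS : ∀ p : ℕ, p ≤ P → ¬ p ∈ bigP Y W := fun p hp h => by
    have := (mem_bP.1 h).2.1
    omega
  have hb1 : SP (fun p => p ≤ P) b := fun n hn => by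
    obtain ⟨h1, -, h3⟩ := hb n hn
    exact ⟨by omega, h3⟩
  have hbS' : SP (fun p => ¬ p ∈ bigP Y W) b := SP_mono hbS hb1
  have hflen : ∀ m, M * N < m → f m = 0 := by rw [hf]; exact cv_len _ _ _ _ hr hb.len
  have hfS : SP (fun p => p ≤ P ∨ p ∈ bigP Y W) f := by
    rw [hf]
    exact SP_cv _ _ _ (SP_mono (fun p hp => Or.inr hp) hrS) (SP_mono (fun p hp => Or.inl hp) hb1)
  have hN2f : N2 (M * N) f = N2 M r * N2 N b := by
    rw [hf]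
    exact N2_cv hrS hbS' hr hb.len le_rfl
  have hX2 : 1 ≤ X ^ 2 := Nat.one_le_pow _ _ hX1
  have hXX : X ≤ X ^ 2 := Nat.le_self_pow (by norm_num) X
  have hlen' : ∀ k : ℕ, k ≤ X ^ 2 → ((k * (M * N) : ℕ) : ℝ) ≤ T ^ (1 / 4 : ℝ) := by
    intro k hk
    refine le_trans ?_ hlen
    exact_mod_cast Nat.mul_le_mul_right _ hk
  have hT0 : 0 < T := by linarith
  have hle : T ≤ 2 * T := by linarith
  obtain ⟨N0, hN0⟩ : ∃ N0, N0 = N2 (M * N) f := ⟨_, rfl⟩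
  have hN00 : 0 ≤ N0 := by rw [hN0]; exact N2_nn _ _
  have mF : ∫ t in T..(2 * T), ‖dp (M * N) f t‖ ^ 2 ≤ 2 * (T * N0) := by
    have := (Pool.Agent.Q84.UM.t_MVL T hT (M * N) (by simpa using hlen' 1 hX2) f).2
    rw [← hN0] at this
    linarith
  have mA := shift_gen hT0.le (fun b => hTHP b) (f := f) hα
  rw [← hN0] at mA
  have hC₂ : 0 ≤ C₂ * l ^ 2 := le_trans (by positivity) (hall 0 X le_rfl)
  -- the five squares
  have m1 : ∫ t in T..(2 * T), ‖dp Y (uu P Y (aj α)) t‖ ^ 2 * ‖dp (M * N) f t‖ ^ 2 ≤ 2 * T * (C₂ * l ^ 2 * N0) := by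
    refine (pint hT (uu_sp2 P Y (aj α)) (SP_mono ?_ hfS) (uu_qs P Y (aj α)).len hflen (hlen' Y (by omega))).trans ?_
    · rintro p (hp | hp) h
      · have := (mem_bP.1 h).2.1; omega
      · have h5 := (mem_bP.1 h).2.2
        have h6 := (mem_bP.1 hp).2.1
        omega
    · rw [← hN0]
      have h5 : N2 Y (uu P Y (aj α)) ≤ C₂ * l ^ 2 := by
        rw [uu_N2]
        refine le_trans (Finset.sum_le_sum fun p _ => ?_) (hall P Y hYX)
        have : ‖aj α p‖ ^ 2 ≤ 1 := pow_le_one₀ (norm_nonneg _) (aj_le α p)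
        gcongr
      gcongr
  have m2 : ∫ t in T..(2 * T), ‖dp (Y ^ 2) (u2 P Y (aj (2 * α))) t‖ ^ 2 * ‖dp (M * N) f t‖ ^ 2 ≤ 2 * T * (1 / 2 * N0) := by
    refine (pint hT (u2_sp2 P Y (aj (2 * α))) (SP_mono ?_ hfS) (u2_len P Y (aj (2 * α))) hflen
      (hlen' (Y ^ 2) (Nat.pow_le_pow_left hYX 2))).trans ?_
    · rintro p (hp | hp) h
      · have := (mem_bP.1 h).2.1; omega
      · have h5 := (mem_bP.1 h).2.2
        have h6 := (mem_bP.1 hp).2.1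
        omega
    · rw [← hN0]
      have h5 : N2 (Y ^ 2) (u2 P Y (aj (2 * α))) ≤ 1 / 2 := (u2_N2 P Y (aj_le (2 * α))).trans (by norm_num)
      gcongr
  have m3 : ∫ t in T..(2 * T), ‖dp W (uu Y W (aj α)) t - z‖ ^ 2 * ‖dp (M * N) f t‖ ^ 2 ≤
      2 * T * (|C₁| * l ^ 2 * N0) := by
    have h5 := (Pool.Agent.Q84.UM.t_MVL T hT (M * N) (by simpa using hlen' 1 hX2) (cv e b)).2
    rw [N2_cv heS hbS' he hb.len le_rfl] at h5
    have h6 : ∀ t, ‖dp W (uu Y W (aj α)) t - z‖ ^ 2 * ‖dp (M * N) f t‖ ^ 2 = ‖dp (M * N) (cv e b) t‖ ^ 2 := by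
      intro t
      rw [hf, ← hD.1 M N r b t hr hb.len, ← hD.1 M N e b t he hb.len, hde t, norm_mul, norm_mul, norm_mul]
      ring
    simp_rw [h6]
    refine h5.trans ?_
    have h7 : N2 M e * N2 N b ≤ |C₁| * l ^ 2 * N0 := by
      rw [hN0, hN2f, ← mul_assoc]
      refine mul_le_mul_of_nonneg_right (hNe.trans ?_) (N2_nn _ _)
      exact mul_le_mul_of_nonneg_right (mul_le_mul_of_nonneg_right (le_abs_self _) (by positivity)) (N2_nn _ _)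
    exact mul_le_mul_of_nonneg_left h7 (by linarith)
  have m4 : ∫ t in T..(2 * T), ‖dp X (uu W X (aj α)) t‖ ^ 2 * ‖dp (M * N) f t‖ ^ 2 ≤ 2 * T * (C₂ * l ^ 2 * N0) := by
    refine (pint hT (uu_sp2 W X (aj α)) (SP_mono ?_ hfS) (uu_qs W X (aj α)).len hflen (hlen' X hXX)).trans ?_
    · rintro p (hp | hp) h
      · have := (mem_bP.1 h).2.1; omega
      · have h5 := (mem_bP.1 h).2.1
        have h6 := (mem_bP.1 hp).2.2
        omega
    · rw [← hN0]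
      have h5 : N2 X (uu W X (aj α)) ≤ C₂ * l ^ 2 := by
        rw [uu_N2]
        refine le_trans (Finset.sum_le_sum fun p _ => ?_) (hall W X le_rfl)
        have : ‖aj α p‖ ^ 2 ≤ 1 := pow_le_one₀ (norm_nonneg _) (aj_le α p)
        gcongr
      gcongr
  have m5 : ∫ t in T..(2 * T), ‖dp (X ^ 2) (u2 W X (aj (2 * α))) t‖ ^ 2 * ‖dp (M * N) f t‖ ^ 2 ≤ 2 * T * (1 / 2 * N0) := by
    refine (pint hT (u2_sp2 W X (aj (2 * α))) (SP_mono ?_ hfS) (u2_len W X (aj (2 * α))) hflen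
      (hlen' (X ^ 2) le_rfl)).trans ?_
    · rintro p (hp | hp) h
      · have := (mem_bP.1 h).2.1; omega
      · have h5 := (mem_bP.1 h).2.1
        have h6 := (mem_bP.1 hp).2.2
        omega
    · rw [← hN0]
      have h5 : N2 (X ^ 2) (u2 W X (aj (2 * α))) ≤ 1 / 2 := (u2_N2 W X (aj_le (2 * α))).trans (by norm_num)
      gcongr
  have m6 : ∫ t in T..(2 * T), ‖dp (W ^ 2) (u2 Y W (aj (2 * α))) t‖ ^ 2 * ‖dp (M * N) f t‖ ^ 2 ≤
      2 * T * (1 / 2 * N0) := by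
    have hslen := cv_len _ _ _ _ (u2_len Y W (aj (2 * α))) hr
    have hsSP : SP (fun p => p ∈ bigP Y W) (cv (u2 Y W (aj (2 * α))) r) := SP_cv _ _ _ (u2_sp2 Y W (aj (2 * α))) hrS
    have hWX' : W ^ 2 ≤ X ^ 2 := Nat.pow_le_pow_left hWX 2
    have hlen6 : ((W ^ 2 * M * N : ℕ) : ℝ) ≤ T ^ (1 / 4 : ℝ) := by
      refine le_trans ?_ hlen
      have : W ^ 2 * M * N ≤ X ^ 2 * (M * N) := by
        rw [mul_assoc]
        exact Nat.mul_le_mul_right _ hWX'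
      exact_mod_cast this
    have h5 := (Pool.Agent.Q84.UM.t_MVL T hT (W ^ 2 * M * N) hlen6 (cv (cv (u2 Y W (aj (2 * α))) r) b)).2
    rw [N2_cv hsSP hbS' hslen hb.len le_rfl] at h5
    have h6 : ∀ t, ‖dp (W ^ 2) (u2 Y W (aj (2 * α))) t‖ ^ 2 * ‖dp (M * N) f t‖ ^ 2 =
        ‖dp (W ^ 2 * M * N) (cv (cv (u2 Y W (aj (2 * α))) r) b) t‖ ^ 2 := by
      intro t
      rw [hf, ← hD.1 M N r b t hr hb.len, ← hD.1 (W ^ 2 * M) N _ b t hslen hb.len,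
        ← hD.1 (W ^ 2) M _ r t (u2_len Y W (aj (2 * α))) hr, norm_mul, norm_mul, norm_mul]
      ring
    simp_rw [h6]
    refine h5.trans ?_
    have h7 : N2 (W ^ 2 * M) (cv (u2 Y W (aj (2 * α))) r) * N2 N b ≤ 1 / 2 * N0 := by
      rw [hN0, hN2f, ← mul_assoc]
      refine mul_le_mul_of_nonneg_right ((sq_orth hrsq hr).trans ?_) (N2_nn _ _)
      exact mul_le_mul_of_nonneg_right ((u2_N2 Y W (aj_le (2 * α))).trans (by norm_num)) (N2_nn _ _)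
    exact mul_le_mul_of_nonneg_left h7 (by linarith)
  rw [← hf, ← hN0]
  -- integrability
  have cF : Continuous fun t => ‖dp (M * N) f t‖ ^ 2 := (dp_c _ _).norm.pow 2
  have c1 : Continuous fun t => ‖dp Y (uu P Y (aj α)) t‖ ^ 2 * ‖dp (M * N) f t‖ ^ 2 := ((dp_c _ _).norm.pow 2).mul cF
  have c2 : Continuous fun t => ‖dp (Y ^ 2) (u2 P Y (aj (2 * α))) t‖ ^ 2 * ‖dp (M * N) f t‖ ^ 2 :=
    ((dp_c _ _).norm.pow 2).mul cF
  have c3 : Continuous fun t => ‖dp W (uu Y W (aj α)) t - z‖ ^ 2 * ‖dp (M * N) f t‖ ^ 2 :=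
    (((dp_c _ _).sub continuous_const).norm.pow 2).mul cF
  have c4 : Continuous fun t => ‖dp X (uu W X (aj α)) t‖ ^ 2 * ‖dp (M * N) f t‖ ^ 2 := ((dp_c _ _).norm.pow 2).mul cF
  have c5 : Continuous fun t => ‖dp (X ^ 2) (u2 W X (aj (2 * α))) t‖ ^ 2 * ‖dp (M * N) f t‖ ^ 2 :=
    ((dp_c _ _).norm.pow 2).mul cF
  have c6 : Continuous fun t => ‖dp (W ^ 2) (u2 Y W (aj (2 * α))) t‖ ^ 2 * ‖dp (M * N) f t‖ ^ 2 :=
    ((dp_c _ _).norm.pow 2).mul cF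
  have i0 := mA.1
  have iF := cF.intervalIntegrable (μ := volume) T (2 * T)
  have i1 := c1.intervalIntegrable (μ := volume) T (2 * T)
  have i2 := c2.intervalIntegrable (μ := volume) T (2 * T)
  have i3 := c3.intervalIntegrable (μ := volume) T (2 * T)
  have i4 := c4.intervalIntegrable (μ := volume) T (2 * T)
  have i5 := c5.intervalIntegrable (μ := volume) T (2 * T)
  have i6 := c6.intervalIntegrable (μ := volume) T (2 * T)
  have e0 : (fun t => gk2 Δ l α z P Y W X t * ‖dp (M * N) f t‖ ^ 2) = fun t =>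
      |Δ (t + α)| * ‖dp (M * N) f t‖ ^ 2 + ((12 * S3 + 6 * l) * ‖dp (M * N) f t‖ ^ 2 +
      1 / l * (‖dp Y (uu P Y (aj α)) t‖ ^ 2 * ‖dp (M * N) f t‖ ^ 2 +
        (‖dp (Y ^ 2) (u2 P Y (aj (2 * α))) t‖ ^ 2 * ‖dp (M * N) f t‖ ^ 2 +
        (‖dp W (uu Y W (aj α)) t - z‖ ^ 2 * ‖dp (M * N) f t‖ ^ 2 +
        (‖dp X (uu W X (aj α)) t‖ ^ 2 * ‖dp (M * N) f t‖ ^ 2 +
        (‖dp (X ^ 2) (u2 W X (aj (2 * α))) t‖ ^ 2 * ‖dp (M * N) f t‖ ^ 2 +
        ‖dp (W ^ 2) (u2 Y W (aj (2 * α))) t‖ ^ 2 * ‖dp (M * N) f t‖ ^ 2)))))) := by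
    funext t
    unfold gk2
    ring
  rw [e0]
  have i56 := i5.add i6
  have i45 := i4.add i56
  have i345 := i3.add i45
  have i2345 := i2.add i345
  have i12345 := i1.add i2345
  have iG := i12345.const_mul (1 / l)
  have iK := iF.const_mul (12 * S3 + 6 * l)
  refine ⟨i0.add (iK.add iG), ?_⟩
  rw [intervalIntegral.integral_add i0 (iK.add iG), intervalIntegral.integral_add iK iG,
    intervalIntegral.integral_const_mul, intervalIntegral.integral_const_mul,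
    intervalIntegral.integral_add i1 i2345, intervalIntegral.integral_add i2 i345,
    intervalIntegral.integral_add i3 i45, intervalIntegral.integral_add i4 i56, intervalIntegral.integral_add i5 i6]
  have hTN : 0 ≤ T * N0 := by positivity
  have hF0 : 0 ≤ ∫ t in T..(2 * T), ‖dp (M * N) f t‖ ^ 2 :=
    intervalIntegral.integral_nonneg hle fun t _ => by positivity
  have k1 : (12 * S3 + 6 * l) * ∫ t in T..(2 * T), ‖dp (M * N) f t‖ ^ 2 ≤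
      (12 * S3 + 6) * l * (2 * (T * N0)) := by
    have h5 : 12 * S3 + 6 * l ≤ (12 * S3 + 6) * l := by nlinarith
    calc (12 * S3 + 6 * l) * ∫ t in T..(2 * T), ‖dp (M * N) f t‖ ^ 2 ≤
        ((12 * S3 + 6) * l) * ∫ t in T..(2 * T), ‖dp (M * N) f t‖ ^ 2 := mul_le_mul_of_nonneg_right h5 hF0
      _ ≤ _ := mul_le_mul_of_nonneg_left mF (by positivity)
  have k2 : 1 / l * ((∫ t in T..(2 * T), ‖dp Y (uu P Y (aj α)) t‖ ^ 2 * ‖dp (M * N) f t‖ ^ 2) +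
      ((∫ t in T..(2 * T), ‖dp (Y ^ 2) (u2 P Y (aj (2 * α))) t‖ ^ 2 * ‖dp (M * N) f t‖ ^ 2) +
      ((∫ t in T..(2 * T), ‖dp W (uu Y W (aj α)) t - z‖ ^ 2 * ‖dp (M * N) f t‖ ^ 2) +
      ((∫ t in T..(2 * T), ‖dp X (uu W X (aj α)) t‖ ^ 2 * ‖dp (M * N) f t‖ ^ 2) +
      ((∫ t in T..(2 * T), ‖dp (X ^ 2) (u2 W X (aj (2 * α))) t‖ ^ 2 * ‖dp (M * N) f t‖ ^ 2) +
      (∫ t in T..(2 * T), ‖dp (W ^ 2) (u2 Y W (aj (2 * α))) t‖ ^ 2 * ‖dp (M * N) f t‖ ^ 2)))))) ≤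
      2 * (2 * C₂ + |C₁| + 2) * l * (T * N0) := by
    have h5 : 1 / l * (2 * T * (C₂ * l ^ 2 * N0) + (2 * T * (1 / 2 * N0) + (2 * T * (|C₁| * l ^ 2 * N0) +
        (2 * T * (C₂ * l ^ 2 * N0) + (2 * T * (1 / 2 * N0) + 2 * T * (1 / 2 * N0)))))) =
        2 * (2 * C₂ + |C₁|) * l * (T * N0) + 3 * (1 / l) * (T * N0) := by
      field_simp
      ring
    have h6 : 3 * (1 / l) * (T * N0) ≤ 4 * l * (T * N0) := by
      have h7 : 1 / l ≤ l := by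
        rw [div_le_iff₀ hl0]
        nlinarith
      have h8 : 3 * (1 / l) ≤ 4 * l := by linarith
      exact mul_le_mul_of_nonneg_right h8 hTN
    refine (mul_le_mul_of_nonneg_left (by linarith : _ ≤ 2 * T * (C₂ * l ^ 2 * N0) + (2 * T * (1 / 2 * N0) +
      (2 * T * (|C₁| * l ^ 2 * N0) + (2 * T * (C₂ * l ^ 2 * N0) + (2 * T * (1 / 2 * N0) + 2 * T * (1 / 2 * N0))))))
      (by positivity : 0 ≤ 1 / l)).trans ?_
    rw [h5]
    linarith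
  have k0 : C₀ * T * N0 ≤ |C₀| * l * (T * N0) := by
    have : C₀ ≤ |C₀| * l := (le_abs_self _).trans (le_mul_of_one_le_right (abs_nonneg _) hl)
    calc C₀ * T * N0 = C₀ * (T * N0) := by ring
      _ ≤ _ := mul_le_mul_of_nonneg_right this hTN
  have hC₀0 : 0 ≤ C₀ * T * N0 := by
    refine le_trans ?_ mA.2
    exact intervalIntegral.integral_nonneg hle fun t _ => by positivity
  have k0' : C₀ * T * N0 ≤ C₀ * l * (T * N0) := by
    calc C₀ * T * N0 = (C₀ * T * N0) * 1 := by ring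
      _ ≤ (C₀ * T * N0) * l := mul_le_mul_of_nonneg_left hl hC₀0
      _ = _ := by ring
  have := mA.2
  linarith

end

end Run7.h311.OL
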