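import Pool.Agent.Run7.h311.OA.FinC
import Pool.Agent.Run7.h311.OL.One2
import Pool.Agent.Run7.h311.OL.Phs2

set_option autoImplicit false

/-! Joint large deviations of modulus and argument at several shifts, with prescribed phases of the small primes. -/

namespace Run7.h311.OL

open Filter Topology MeasureTheory Complex
open Pool.Agent.Q97.UM Pool.Agent.Q14.UM Run7.h311.LW Run7.h311.OM Run7.h311.OA
open Pool.Agent.Q98.UM (S3 S3_nonneg)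
open Pool.Agent.Run7.h74.AE (az EA)

noncomputable section

/-- Markov's inequality with a weight -/
theorem mk2 {n : ℕ} {T C G H lam I4 : ℝ} (hT : 0 < T) (hlam : 0 < lam) {F : ℝ → ℝ} (hFc : Continuous F)
    (hI4 : ∫ t in T..(2 * T), F t ^ 2 ≤ I4) {E : Set ℝ} (hE : MeasurableSet E) (hEs : E ⊆ Set.Ioc T (2 * T))
    (g : Fin n → ℝ → ℝ) (hg : ∀ j, IntervalIntegrable (fun t => g j t * F t) volume T (2 * T))
    (hgm : ∀ j, ∫ t in T..(2 * T), g j t * F t ≤ G) (hg0 : ∀ j t, 0 ≤ g j t * F t) (hC : 0 ≤ C)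
    {S : Finset ℕ} {h : ℕ → ℝ → ℝ} (hh : ∀ q ∈ S, Continuous (h q)) (hh0 : ∀ q t, 0 ≤ h q t)
    (hS : ∑ q ∈ S, ∫ t in T..(2 * T), h q t ≤ H)
    (hpt : ∀ t, T < t → t ≤ 2 * T → t ∉ E → (∃ j, F t ≤ C * (g j t * F t)) ∨ ∃ q ∈ S, F t ≤ h q t) :
    ∫ t in T..(2 * T), F t ≤ lam / 2 * volume.real E + 1 / (2 * lam) * I4 + C * (n * G) + H := by
  have hle : T ≤ 2 * T := by linarith
  have iF : IntegrableOn F (Set.Ioc T (2 * T)) :=
    (intervalIntegrable_iff_integrableOn_Ioc_of_le hle).1 (hFc.intervalIntegrable _ _)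
  have ig : ∀ j, IntegrableOn (fun t => g j t * F t) (Set.Ioc T (2 * T)) := fun j =>
    (intervalIntegrable_iff_integrableOn_Ioc_of_le hle).1 (hg j)
  have ih : ∀ q ∈ S, IntegrableOn (h q) (Set.Ioc T (2 * T)) := fun q hq =>
    (intervalIntegrable_iff_integrableOn_Ioc_of_le hle).1 ((hh q hq).intervalIntegrable _ _)
  have iE : IntegrableOn (E.indicator F) (Set.Ioc T (2 * T)) := Integrable.indicator iF hE
  have ig' : ∀ j ∈ (Finset.univ : Finset (Fin n)), IntegrableOn (fun t => C * (g j t * F t)) (Set.Ioc T (2 * T)) :=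
    fun j _ => (ig j).const_mul C
  have iG : IntegrableOn (fun t => ∑ j, C * (g j t * F t)) (Set.Ioc T (2 * T)) := integrable_finsetSum _ ig'
  have iH : IntegrableOn (fun t => ∑ q ∈ S, h q t) (Set.Ioc T (2 * T)) := integrable_finsetSum _ ih
  have iGH : IntegrableOn (fun t => (∑ j, C * (g j t * F t)) + ∑ q ∈ S, h q t) (Set.Ioc T (2 * T)) := iG.add iH
  have h1 : ∫ t in Set.Ioc T (2 * T), F t ≤
      ∫ t in Set.Ioc T (2 * T), (E.indicator F t + ((∑ j, C * (g j t * F t)) + ∑ q ∈ S, h q t)) := by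
    refine setIntegral_mono_on iF (iE.add iGH) measurableSet_Ioc fun t ht => ?_
    have k1 : 0 ≤ ∑ j, C * (g j t * F t) := Finset.sum_nonneg fun j _ => mul_nonneg hC (hg0 j t)
    have k2 : 0 ≤ ∑ q ∈ S, h q t := Finset.sum_nonneg fun q _ => hh0 q t
    by_cases hte : t ∈ E
    · rw [Set.indicator_of_mem hte]
      linarith
    · rw [Set.indicator_of_notMem hte]
      rcases hpt t ht.1 ht.2 hte with ⟨j, hj⟩ | ⟨q, hq, hq2⟩
      · have k3 := Finset.single_le_sum (f := fun j => C * (g j t * F t)) (fun j _ => mul_nonneg hC (hg0 j t))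
          (Finset.mem_univ j)
        have k4 : C * (g j t * F t) ≤ ∑ j, C * (g j t * F t) := k3
        linarith
      · have k3 := Finset.single_le_sum (f := fun q => h q t) (fun q _ => hh0 q t) hq
        have k4 : h q t ≤ ∑ q ∈ S, h q t := k3
        linarith
  have h2 : ∫ t in Set.Ioc T (2 * T), (E.indicator F t + ((∑ j, C * (g j t * F t)) + ∑ q ∈ S, h q t)) =
      (∫ t in Set.Ioc T (2 * T), E.indicator F t) + ((∑ j, C * ∫ t in Set.Ioc T (2 * T), g j t * F t) +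
        ∑ q ∈ S, ∫ t in Set.Ioc T (2 * T), h q t) := by
    rw [integral_add iE iGH, integral_add iG iH, integral_finsetSum _ ig', integral_finsetSum _ ih]
    congr 2
    exact Finset.sum_congr rfl fun j _ => integral_const_mul _ _
  have h3 : ∫ t in Set.Ioc T (2 * T), E.indicator F t ≤ lam / 2 * volume.real E + 1 / (2 * lam) * I4 := by
    have iF2 : IntegrableOn (fun t => F t ^ 2) (Set.Ioc T (2 * T)) :=
      (intervalIntegrable_iff_integrableOn_Ioc_of_le hle).1 ((hFc.pow 2).intervalIntegrable _ _)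
    have ic : IntegrableOn (fun _ : ℝ => lam / 2) (Set.Ioc T (2 * T)) :=
      integrableOn_const measure_Ioc_lt_top.ne
    have icE : IntegrableOn (E.indicator fun _ : ℝ => lam / 2) (Set.Ioc T (2 * T)) := Integrable.indicator ic hE
    have iF2' : IntegrableOn (fun t => 1 / (2 * lam) * F t ^ 2) (Set.Ioc T (2 * T)) := iF2.const_mul _
    have h4 : ∫ t in Set.Ioc T (2 * T), E.indicator F t ≤
        ∫ t in Set.Ioc T (2 * T), (E.indicator (fun _ : ℝ => lam / 2) t + 1 / (2 * lam) * F t ^ 2) := by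
      refine integral_mono iE (icE.add iF2') fun t => ?_
      change E.indicator F t ≤ E.indicator (fun _ : ℝ => lam / 2) t + 1 / (2 * lam) * F t ^ 2
      by_cases hte : t ∈ E
      · rw [Set.indicator_of_mem hte, Set.indicator_of_mem hte]
        have h5 : lam / 2 + 1 / (2 * lam) * F t ^ 2 - F t = (lam - F t) ^ 2 / (2 * lam) := by
          field_simp
          ring
        have h6 : 0 ≤ (lam - F t) ^ 2 / (2 * lam) := by positivity
        linarith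
      · rw [Set.indicator_of_notMem hte, Set.indicator_of_notMem hte]
        positivity
    refine h4.trans ?_
    rw [integral_add icE iF2', setIntegral_indicator hE, Set.inter_eq_self_of_subset_right hEs, setIntegral_const,
      integral_const_mul, smul_eq_mul, mul_comm (volume.real E)]
    rw [intervalIntegral.integral_of_le hle] at hI4
    exact add_le_add le_rfl (mul_le_mul_of_nonneg_left hI4 (by positivity))
  have h4 : ∑ j, C * ∫ t in Set.Ioc T (2 * T), g j t * F t ≤ C * (n * G) := by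
    calc ∑ j, C * ∫ t in Set.Ioc T (2 * T), g j t * F t ≤ ∑ _j : Fin n, C * G := by
          refine Finset.sum_le_sum fun j _ => mul_le_mul_of_nonneg_left ?_ hC
          rw [← intervalIntegral.integral_of_le hle]
          exact hgm j
      _ = C * (n * G) := by
          rw [Finset.sum_const, Finset.card_univ, Fintype.card_fin, nsmul_eq_mul]
          ring
  have h5 : ∑ q ∈ S, ∫ t in Set.Ioc T (2 * T), h q t ≤ H := by
    refine le_trans (le_of_eq ?_) hS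
    exact Finset.sum_congr rfl fun q _ => (intervalIntegral.integral_of_le hle).symm
  rw [intervalIntegral.integral_of_le hle]
  linarith

/-- the parameters -/
theorem par {c₂ c₃ L ll V : ℝ} {K₀ : ℕ} (hc₂0 : 0 < c₂) (hc₂1 : c₂ ≤ 1) (hc₃0 : 0 < c₃) (hc₃1 : c₃ ≤ 1)
    (hc₃ : c₃ * (K₀ + 2) ≤ c₂) (hK₀3 : 3 ≤ K₀) (hL0 : 0 < L) (hll : ll = Real.log L) (hLL1' : 1 ≤ ll)
    (hVlo : Real.sqrt ll ≤ V) (hVc : V ≤ c₃ * Real.sqrt (L / ll)) :
    ∃ (Lam : ℝ) (K' : ℕ), Lam = L / (V ^ 2 * ll) ∧ Lam * (V ^ 2 * ll) = L ∧ K₀ ≤ K' ∧ (K' : ℝ) ≤ c₂ * Lam ∧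
      1 ≤ Real.log K' ∧ 1 / 2 * Real.log Lam ≤ Real.log K' ∧ 0 < Real.log Lam ∧ 1 ≤ V ^ 2 / Real.log Lam ∧ V ^ 2 ≤ L ∧
      K' * (2 * ll) ≤ L * (2 * c₂) ∧ 0 < V := by
  have hll0 : 0 < ll := by linarith
  have hK₀0 : (0 : ℝ) ≤ K₀ := Nat.cast_nonneg _
  have hc₃2 : c₃ ≤ c₂ / 2 := by nlinarith
  have hV0 : 0 < V := lt_of_lt_of_le (Real.sqrt_pos.2 hll0) hVlo
  have hVll : ll ≤ V ^ 2 := by
    have := pow_le_pow_left₀ (Real.sqrt_nonneg _) hVlo 2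
    rwa [Real.sq_sqrt hll0.le] at this
  have hV1 : 1 ≤ V ^ 2 := hLL1'.trans hVll
  have hV2 : V ^ 2 * ll ≤ c₃ ^ 2 * L := by
    have h5 := pow_le_pow_left₀ hV0.le hVc 2
    rw [mul_pow, Real.sq_sqrt (by positivity)] at h5
    calc V ^ 2 * ll ≤ (c₃ ^ 2 * (L / ll)) * ll := mul_le_mul_of_nonneg_right h5 hll0.le
      _ = c₃ ^ 2 * L := by field_simp
  have hc₃sq : c₃ ^ 2 ≤ c₃ := by nlinarith
  have hVL : V ^ 2 ≤ L := by
    have h5 : V ^ 2 * 1 ≤ V ^ 2 * ll := mul_le_mul_of_nonneg_left hLL1' (by positivity)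
    have h6 : c₃ ^ 2 * L ≤ 1 * L := mul_le_mul_of_nonneg_right (hc₃sq.trans hc₃1) hL0.le
    linarith
  obtain ⟨Lam, hLam⟩ : ∃ Lam, Lam = L / (V ^ 2 * ll) := ⟨_, rfl⟩
  have hVl0 : 0 < V ^ 2 * ll := by positivity
  have hLam0 : 0 < Lam := by rw [hLam]; positivity
  have hLamV : Lam * (V ^ 2 * ll) = L := by rw [hLam]; field_simp
  have hLamc : 1 ≤ c₃ ^ 2 * Lam := by
    rw [hLam, ← mul_div_assoc, one_le_div hVl0]
    exact hV2
  have hLamL : Lam ≤ L := by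
    rw [hLam]
    refine div_le_self hL0.le ?_
    nlinarith
  obtain ⟨K', hK'⟩ : ∃ K' : ℕ, K' = ⌊c₂ * Lam⌋₊ := ⟨_, rfl⟩
  have hcl0 : 0 ≤ c₂ * Lam := by positivity
  have hK'le : (K' : ℝ) ≤ c₂ * Lam := by rw [hK']; exact Nat.floor_le hcl0
  have hcLam : (K₀ : ℝ) + 2 ≤ c₂ * Lam := by
    have h5 : c₃ ^ 2 * Lam ≤ c₃ * Lam := mul_le_mul_of_nonneg_right hc₃sq hLam0.le
    have h6 : (c₃ * (K₀ + 2)) * Lam ≤ c₂ * Lam := mul_le_mul_of_nonneg_right hc₃ hLam0.le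
    have h7 : (K₀ + 2 : ℝ) * 1 ≤ (K₀ + 2 : ℝ) * (c₃ * Lam) := mul_le_mul_of_nonneg_left (hLamc.trans h5) (by positivity)
    calc (K₀ : ℝ) + 2 = (K₀ + 2 : ℝ) * 1 := (mul_one _).symm
      _ ≤ (K₀ + 2 : ℝ) * (c₃ * Lam) := h7
      _ = (c₃ * (K₀ + 2)) * Lam := by ring
      _ ≤ _ := h6
  have hK'K : K₀ ≤ K' := by
    rw [hK']
    apply Nat.le_floor
    linarith
  have hK'3 : 3 ≤ K' := hK₀3.trans hK'K
  have hK'0 : (0 : ℝ) < K' := by exact_mod_cast (by omega : 0 < K')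
  have hK'low : c₂ / 2 * Lam ≤ K' := by
    have h5 : c₂ * Lam < K' + 1 := by rw [hK']; exact Nat.lt_floor_add_one _
    have h6 : (2 : ℝ) ≤ c₂ * Lam := by linarith
    linarith
  have hlogK1 : 1 ≤ Real.log K' := by
    rw [Real.le_log_iff_exp_le hK'0]
    have h5 : (3 : ℝ) ≤ K' := by exact_mod_cast hK'3
    have h6 := Real.exp_one_lt_d9
    linarith
  have hlogLam : 1 / 2 * Real.log Lam ≤ Real.log K' := by
    have h5 : Real.sqrt Lam ≤ c₂ / 2 * Lam := by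
      have h6 : 1 ≤ c₃ * Real.sqrt Lam := by
        have h7 := Real.one_le_sqrt.2 hLamc
        rwa [Real.sqrt_mul (by positivity), Real.sqrt_sq hc₃0.le] at h7
      have h7 : 1 ≤ c₂ / 2 * Real.sqrt Lam := h6.trans (mul_le_mul_of_nonneg_right hc₃2 (Real.sqrt_nonneg _))
      calc Real.sqrt Lam = 1 * Real.sqrt Lam := (one_mul _).symm
        _ ≤ (c₂ / 2 * Real.sqrt Lam) * Real.sqrt Lam := mul_le_mul_of_nonneg_right h7 (Real.sqrt_nonneg _)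
        _ = c₂ / 2 * Lam := by rw [mul_assoc, Real.mul_self_sqrt hLam0.le]
    have h6 : Real.log (Real.sqrt Lam) ≤ Real.log K' := Real.log_le_log (Real.sqrt_pos.2 hLam0) (h5.trans hK'low)
    rw [Real.log_sqrt hLam0.le] at h6
    linarith
  have hLam1 : 1 < Lam := by
    have h5 : c₃ ^ 2 ≤ 1 / 4 := by nlinarith
    nlinarith
  have hlogLam0 : 0 < Real.log Lam := Real.log_pos hLam1
  have hlogLamL : Real.log Lam ≤ ll := by
    rw [hll]
    exact Real.log_le_log hLam0 hLamL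
  have hVlog : 1 ≤ V ^ 2 / Real.log Lam := by
    rw [one_le_div hlogLam0]
    linarith
  have hKL : K' * (2 * ll) ≤ L * (2 * c₂) := by
    have h6 : K' * (2 * ll) ≤ (c₂ * Lam) * (2 * ll) := mul_le_mul_of_nonneg_right hK'le (by positivity)
    have h7 : Lam * ll ≤ L := by
      calc Lam * ll = Lam * (1 * ll) := by ring
        _ ≤ Lam * (V ^ 2 * ll) := by gcongr
        _ = L := hLamV
    have h8 : (c₂ * Lam) * (2 * ll) = 2 * c₂ * (Lam * ll) := by ring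
    have h9 : 2 * c₂ * (Lam * ll) ≤ 2 * c₂ * L := mul_le_mul_of_nonneg_left h7 (by positivity)
    linarith
  exact ⟨Lam, K', hLam, hLamV, hK'K, hK'le, hlogK1, hlogLam, hlogLam0, hVlog, hVL, hKL, hV0⟩

theorem len_cmp {c₂ L ll V Lam θ : ℝ} {n K K' : ℕ} (hKle : (K : ℝ) ≤ 64 * n ^ 2 * V ^ 2 / Real.log K' + 1)
    (hlogK1 : 1 ≤ Real.log K') (hK'le : (K' : ℝ) ≤ c₂ * Lam) (hll0 : 0 < ll) (hLL1' : 1 ≤ ll) (hV0 : 0 < V)
    (hVlo : Real.sqrt ll ≤ V) (hLamV : Lam * (V ^ 2 * ll) = L) (hc₂θ : 4 * c₂ * (64 * n ^ 2 + 1) ≤ θ) (hL0 : 0 < L) :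
    (K : ℝ) * (4 * K' * ll) ≤ θ * L := by
  have hVll : ll ≤ V ^ 2 := by
    have := pow_le_pow_left₀ (Real.sqrt_nonneg _) hVlo 2
    rwa [Real.sq_sqrt hll0.le] at this
  have h5 : (K : ℝ) ≤ 64 * n ^ 2 * V ^ 2 + V ^ 2 := by
    have h6 : 64 * n ^ 2 * V ^ 2 / Real.log K' ≤ 64 * n ^ 2 * V ^ 2 := div_le_self (by positivity) hlogK1
    linarith
  calc (K : ℝ) * (4 * K' * ll) ≤ (64 * n ^ 2 * V ^ 2 + V ^ 2) * (4 * (c₂ * Lam) * ll) := by gcongr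
    _ = 4 * c₂ * (64 * n ^ 2 + 1) * (Lam * (V ^ 2 * ll)) := by ring
    _ = 4 * c₂ * (64 * n ^ 2 + 1) * L := by rw [hLamV]
    _ ≤ θ * L := mul_le_mul_of_nonneg_right hc₂θ hL0.le

theorem fin_cmp {T vE nb V Lam ll C₆ P : ℝ} {e : ℝ} {n K K' : ℕ} (hT0 : 0 < T) (hvE : 0 ≤ vE)
    (hbN : Real.exp (-(P * Real.log (e * ll))) ≤ nb) (h9 : T * nb ≤ 32 * 2 ^ K * vE)
    (hKle : (K : ℝ) ≤ 64 * n ^ 2 * V ^ 2 / Real.log K' + 1) (hlogK1 : 1 ≤ Real.log K')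
    (hlogLam : 1 / 2 * Real.log Lam ≤ Real.log K') (hlogLam0 : 0 < Real.log Lam) (hVlog : 1 ≤ V ^ 2 / Real.log Lam)
    (hC₆a : 128 * n ^ 2 + 5 ≤ C₆) (hC₆b : 2 ≤ C₆) (hP0 : 0 ≤ P) (hLL1' : 1 ≤ ll) (he : 0 < e) (hLLε : e ≤ ll) :
    T * Real.exp (-(C₆ * (V ^ 2 / Real.log Lam + P * Real.log ll))) ≤ vE := by
  have hll0 : 0 < ll := by linarith
  have h10 : (32 * 2 ^ K : ℝ) ≤ Real.exp (5 + 64 * n ^ 2 * V ^ 2 / Real.log K') := by
    have hlog2 : Real.log 2 ≤ 0.6931471808 := Real.log_two_lt_d9.le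
    have h12 : (32 * 2 ^ K : ℝ) = Real.exp ((K + 5) * Real.log 2) := by
      rw [show ((K : ℝ) + 5) * Real.log 2 = ((K + 5 : ℕ) : ℝ) * Real.log 2 by push_cast; ring, Real.exp_nat_mul,
        Real.exp_log (by norm_num), pow_add]
      norm_num
      ring
    rw [h12]
    apply Real.exp_le_exp.2
    have h13 : ((K : ℝ) + 5) * Real.log 2 ≤ (64 * n ^ 2 * V ^ 2 / Real.log K' + 6) * Real.log 2 :=
      mul_le_mul_of_nonneg_right (by linarith) (Real.log_nonneg (by norm_num))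
    have h14 : 0 ≤ 64 * n ^ 2 * V ^ 2 / Real.log K' := by positivity
    nlinarith
  have h11 : 64 * n ^ 2 * V ^ 2 / Real.log K' ≤ 128 * n ^ 2 * (V ^ 2 / Real.log Lam) := by
    have h12 : 1 / Real.log K' ≤ 2 / Real.log Lam := by
      rw [div_le_div_iff₀ (by linarith) hlogLam0]
      linarith
    calc 64 * n ^ 2 * V ^ 2 / Real.log K' = 64 * n ^ 2 * V ^ 2 * (1 / Real.log K') := by ring
      _ ≤ 64 * n ^ 2 * V ^ 2 * (2 / Real.log Lam) := mul_le_mul_of_nonneg_left h12 (by positivity)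
      _ = _ := by ring
  have h12 : P * Real.log (e * ll) ≤ C₆ * (P * Real.log ll) := by
    have h13 : Real.log (e * ll) ≤ 2 * Real.log ll := by
      have h14 : e * ll ≤ ll ^ 2 := by
        calc e * ll ≤ ll * ll := mul_le_mul_of_nonneg_right hLLε hll0.le
          _ = ll ^ 2 := by ring
      have h15 := Real.log_le_log (by positivity) h14
      rwa [Real.log_pow] at h15
    have h14 : 0 ≤ Real.log ll := Real.log_nonneg hLL1'
    calc P * Real.log (e * ll) ≤ P * (2 * Real.log ll) := mul_le_mul_of_nonneg_left h13 hP0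
      _ = 2 * (P * Real.log ll) := by ring
      _ ≤ C₆ * (P * Real.log ll) := mul_le_mul_of_nonneg_right hC₆b (by positivity)
  have h13 : 5 + 64 * n ^ 2 * V ^ 2 / Real.log K' ≤ C₆ * (V ^ 2 / Real.log Lam) := by
    have h14 : 0 ≤ V ^ 2 / Real.log Lam := by positivity
    calc 5 + 64 * n ^ 2 * V ^ 2 / Real.log K' ≤ 5 * (V ^ 2 / Real.log Lam) + 128 * n ^ 2 * (V ^ 2 / Real.log Lam) := by
          linarith
      _ = (128 * n ^ 2 + 5) * (V ^ 2 / Real.log Lam) := by ring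
      _ ≤ _ := mul_le_mul_of_nonneg_right hC₆a h14
  have h14 : T * Real.exp (-(P * Real.log (e * ll))) ≤
      Real.exp (5 + 64 * n ^ 2 * V ^ 2 / Real.log K') * vE :=
    (mul_le_mul_of_nonneg_left hbN hT0.le).trans (h9.trans (mul_le_mul_of_nonneg_right h10 hvE))
  have h15 : T * Real.exp (-(P * Real.log (e * ll)) - (5 + 64 * n ^ 2 * V ^ 2 / Real.log K')) ≤ vE := by
    rw [Real.exp_sub, ← mul_div_assoc, div_le_iff₀ (Real.exp_pos _), mul_comm vE]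
    exact h14
  refine le_trans (mul_le_mul_of_nonneg_left (Real.exp_le_exp.2 ?_) hT0.le) h15
  linarith

/-- **joint large deviations of modulus and argument at several shifts, with prescribed phases of the small primes** -/
theorem joint2 (n : ℕ) {κ A ε : ℝ} (hκ : 0 < κ) (hε : 0 < ε) : ∃ c C : ℝ, 0 < c ∧ 0 < C ∧
    ∀ᶠ T : ℝ in atTop, ∀ (P : ℕ) (z : ℕ → ℂ) (α : Fin n → ℝ) (x : Fin n → ℂ) (V : ℝ),
      P * Real.log (Real.log T) ≤ c * Real.log T → (∀ p, ‖z p‖ = 1) → (∀ j, |α j| ≤ T / 2) →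
      (∀ i j, i ≠ j → κ / Real.log (Real.log T) ≤ |α i - α j| ∧ |α i - α j| ≤ A) →
      Real.sqrt (Real.log (Real.log T)) ≤ V → V ≤ c * Real.sqrt (Real.log T / Real.log (Real.log T)) →
      (∀ j, ‖x j‖ ≤ V) →
      T * Real.exp (-(C * (V ^ 2 / Real.log (Real.log T / (V ^ 2 * Real.log (Real.log T))) +
        P * Real.log (Real.log (Real.log T))))) ≤
        volume.real (KE (C * Real.sqrt (Real.log (Real.log T))) ε P z α x T) := by
  have hD := Pool.Agent.Q84.UM.t_DPM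
  have hS3 := S3_nonneg
  obtain ⟨θ₁, δ₁, hθ₁, hδ₁, hTP⟩ := b_THP 1
  obtain ⟨θ₂, δ₂, hθ₂, hδ₂, hTA⟩ := b_THA 1
  obtain ⟨θ₃, hθ₃, hθ31, hθ32⟩ : ∃ θ₃ : ℝ, 0 < θ₃ ∧ θ₃ ≤ θ₁ ∧ θ₃ ≤ θ₂ :=
    ⟨min θ₁ θ₂, lt_min hθ₁ hθ₂, min_le_left _ _, min_le_right _ _⟩
  obtain ⟨δ₀, hδ₀, hδ01, hδ02⟩ : ∃ δ₀ : ℝ, 0 < δ₀ ∧ δ₀ ≤ δ₁ ∧ δ₀ ≤ δ₂ :=
    ⟨min δ₁ δ₂, lt_min hδ₁ hδ₂, min_le_left _ _, min_le_right _ _⟩
  obtain ⟨θ, hθ0, hθa, hθb⟩ : ∃ θ : ℝ, 0 < θ ∧ 2 * θ ≤ θ₃ ∧ θ ≤ 1 / 16 :=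
    ⟨min (θ₃ / 2) (1 / 16), by positivity, by linarith [min_le_left (θ₃ / 2) (1 / 16)], min_le_right _ _⟩
  obtain ⟨δ, hδ, hδ1, hδ2⟩ : ∃ δ : ℝ, 0 < δ ∧ δ ≤ δ₀ ∧ δ ≤ 1 / 16 :=
    ⟨min δ₀ (1 / 16), by positivity, min_le_left _ _, min_le_right _ _⟩
  obtain ⟨C₀, hC₀, hTP⟩ := hTP δ hδ (hδ1.trans hδ01)
  obtain ⟨Ca₀, hCa₀, hTA⟩ := hTA δ hδ (hδ1.trans hδ02)
  obtain ⟨K₀, hK₀3, hcore⟩ := core2 n (A := A) hκ
  obtain ⟨Ca, hCa, hall⟩ := all_le
  obtain ⟨ε', hε', hε'1, hεε⟩ : ∃ ε' : ℝ, 0 < ε' ∧ ε' ≤ 1 ∧ ε' ≤ ε :=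
    ⟨min ε 1, lt_min hε one_pos, min_le_right _ _, min_le_left _ _⟩
  obtain ⟨κ₂, hκ₂, hκ₂1, hphs⟩ := phases2 hε' hε'1 hθ0 (by linarith : θ ≤ 1)
  obtain ⟨C₁, hC₁⟩ : ∃ C₁, C₁ = 3 * (1 + Ca) := ⟨_, rfl⟩
  have hC₁0 : 0 ≤ C₁ := by rw [hC₁]; positivity
  obtain ⟨Cg, hCg⟩ : ∃ Cg, Cg = (C₀ + 2 * (12 * S3 + 6) + 2 * (2 * (1 + Ca) + |C₁| + 2)) +
    (Ca₀ + 2 * (12 * S3 + 6) + 2 * (2 * (1 + Ca) + |C₁| + 2)) := ⟨_, rfl⟩
  have hCg0 : 0 < Cg := by rw [hCg]; positivity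
  obtain ⟨C₅, hC₅⟩ : ∃ C₅, C₅ = 8 * ((n : ℝ) + 1) * Cg := ⟨_, rfl⟩
  have hC₅0 : 0 < C₅ := by rw [hC₅]; positivity
  -- the constants
  obtain ⟨c₂, hc₂0, hc₂1, hc₂θ, hc₂δ⟩ : ∃ c₂ : ℝ, 0 < c₂ ∧ c₂ ≤ 1 ∧ 4 * c₂ * (64 * n ^ 2 + 1) ≤ θ ∧ 2 * c₂ ≤ δ := by
    have hn1 : (0 : ℝ) < 4 * (64 * n ^ 2 + 1) := by positivity
    refine ⟨min 1 (min (θ / (4 * (64 * n ^ 2 + 1))) (δ / 2)), by positivity, min_le_left _ _, ?_, ?_⟩
    · have h1 : min 1 (min (θ / (4 * (64 * (n : ℝ) ^ 2 + 1))) (δ / 2)) ≤ θ / (4 * (64 * n ^ 2 + 1)) :=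
        (min_le_right _ _).trans (min_le_left _ _)
      rw [le_div_iff₀ hn1] at h1
      linarith
    · have h1 : min 1 (min (θ / (4 * (64 * (n : ℝ) ^ 2 + 1))) (δ / 2)) ≤ δ / 2 :=
        (min_le_right _ _).trans (min_le_right _ _)
      linarith
  have hK₀0 : (0 : ℝ) ≤ K₀ := Nat.cast_nonneg _
  obtain ⟨c₃, hc₃0, hc₃1, hc₃⟩ : ∃ c₃ : ℝ, 0 < c₃ ∧ c₃ ≤ 1 ∧ c₃ * (K₀ + 2) ≤ c₂ := by
    refine ⟨min 1 (c₂ / (K₀ + 2)), by positivity, min_le_left _ _, ?_⟩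
    have h1 := min_le_right 1 (c₂ / ((K₀ : ℝ) + 2))
    rw [le_div_iff₀ (by positivity)] at h1
    exact h1
  have hc₃2 : c₃ ≤ c₂ / 2 := by nlinarith
  obtain ⟨C₆, hC₆, hC₆a, hC₆b⟩ : ∃ C₆ : ℝ, C₅ ≤ C₆ ∧ 128 * n ^ 2 + 5 ≤ C₆ ∧ 2 ≤ C₆ :=
    ⟨max C₅ (max (128 * n ^ 2 + 5) 2), le_max_left _ _, (le_max_left _ _).trans (le_max_right _ _),
      (le_max_right _ _).trans (le_max_right _ _)⟩
  have hC₆0 : 0 < C₆ := by linarith
  refine ⟨min c₃ κ₂, C₆, by positivity, hC₆0, ?_⟩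
  have tL : Tendsto Real.log atTop atTop := Real.tendsto_log_atTop
  have tLL : Tendsto (fun T => Real.log (Real.log T)) atTop atTop := tL.comp tL
  filter_upwards [hTP, hTA, hcore, hall, hphs, tL.eventually_ge_atTop 3,
    tLL.eventually_ge_atTop 1, tLL.eventually_ge_atTop (35 / ε' ^ 2), eventually_ge_atTop (16 : ℝ)] with T hTP hTA hcore
    hall hphs hL3 hLL1 hLLε hT16 P z α x V hP hz hα hgap hVlo hVhi hx
  have hT0 : 0 < T := by linarith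
  have hT1 : 1 ≤ T := by linarith
  have hmono : ∀ {x y : ℝ}, x ≤ y → T ^ x ≤ T ^ y := fun h => Real.rpow_le_rpow_of_exponent_le hT1 h
  obtain ⟨L, hLd⟩ : ∃ L, L = Real.log T := ⟨_, rfl⟩
  have hL0 : 0 < L := by linarith
  have hPκ : P * Real.log (Real.log T) ≤ κ₂ * Real.log T := by
    refine hP.trans (mul_le_mul_of_nonneg_right (min_le_right _ _) ?_)
    linarith
  have hVc : V ≤ c₃ * Real.sqrt (Real.log T / Real.log (Real.log T)) :=
    hVhi.trans (mul_le_mul_of_nonneg_right (min_le_left _ _) (Real.sqrt_nonneg _))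
  rw [← hLd] at hVc hVlo
  obtain ⟨ll, hll⟩ : ∃ ll, ll = Real.log L := ⟨_, rfl⟩
  rw [← hll] at hVc hVlo
  have hLL1' : 1 ≤ ll := by rw [hll, hLd]; exact hLL1
  have hll0 : 0 < ll := by linarith
  obtain ⟨Lam, K', hLam, hLamV, hK'K, hK'le, hlogK1, hlogLam, hlogLam0, hVlog, hVL, hKL, hV0⟩ :=
    par hc₂0 hc₂1 hc₃0 hc₃1 hc₃ hK₀3 hL0 hll hLL1' hVlo hVc
  have hexpZ : (L ^ 2) ^ K' = Real.exp (K' * (2 * ll)) := by
    rw [hll, Real.exp_nat_mul, show (2 : ℝ) * Real.log L = ((2 : ℕ) : ℝ) * Real.log L by norm_num,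
      Real.exp_nat_mul, Real.exp_log hL0]
  have hpw : (Real.log T ^ 2) ^ K' ≤ T ^ δ := by
    rw [← hLd, hexpZ, Real.rpow_def_of_pos hT0, ← hLd]
    apply Real.exp_le_exp.2
    refine hKL.trans ?_
    exact mul_le_mul_of_nonneg_left hc₂δ hL0.le
  obtain ⟨M, K, r, hKle, hMeq, hrlen, hrS, hrN, hrsq, hr44, hcj⟩ := hcore α x V K' hK'K hV0.le (by rw [← hLd]; exact hVL)
    hgap hx
  obtain ⟨N, b, S, Nq, bq, hNle, hb, hbN, hb1, hq1, hq2, hq3⟩ := hphs P hPκ z hz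
  rw [← hLd] at hP hPκ hrS hcj hq2 hq3 hpw hall hbN hMeq ⊢
  rw [← hll] at hP hPκ hall hbN ⊢
  obtain ⟨l, hl⟩ : ∃ l, l = Real.sqrt ll := ⟨_, rfl⟩
  rw [← hl]
  have hl1 : 1 ≤ l := by rw [hl]; exact Real.one_le_sqrt.2 hLL1'
  have hl2 : l ^ 2 = ll := by rw [hl]; exact Real.sq_sqrt hll0.le
  have hl0 : 0 < l := by linarith
  obtain ⟨Y, hY⟩ : ∃ Y, Y = ⌊L ^ 2⌋₊ := ⟨_, rfl⟩
  obtain ⟨W, hW⟩ : ∃ W, W = ⌊(L ^ 2) ^ K'⌋₊ := ⟨_, rfl⟩
  obtain ⟨X, hX⟩ : ∃ X, X = ⌊T ^ δ⌋₊ := ⟨_, rfl⟩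
  rw [← hY, ← hW] at hrS hcj
  rw [← hW] at hMeq
  rw [← hX] at hTP hTA
  have hL2 : 1 < L ^ 2 := by nlinarith
  have hyZ : L ^ 2 ≤ (L ^ 2) ^ K' := le_self_pow₀ hL2.le (by omega)
  have hYW : Y ≤ W := by rw [hY, hW]; exact Nat.floor_mono hyZ
  have hWX : W ≤ X := by rw [hX, hW]; exact Nat.floor_mono hpw
  have hP0 : (0 : ℝ) ≤ P := Nat.cast_nonneg P
  have hPL : (P : ℝ) ≤ L :=
    (le_mul_of_one_le_right hP0 hLL1').trans (hPκ.trans (mul_le_of_le_one_left hL0.le hκ₂1))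
  have hPY : P ≤ Y := by
    rw [hY]
    apply Nat.le_floor
    nlinarith
  have hY1 : 1 ≤ Y := by rw [hY]; exact Nat.le_floor (by push_cast; linarith)
  have hX1 : 1 ≤ X := by omega
  have hXle : (X : ℝ) ≤ T ^ δ := by rw [hX]; exact Nat.floor_le (by positivity)
  have hXT : (X : ℝ) ≤ T := hXle.trans (by
    calc T ^ δ ≤ T ^ (1 : ℝ) := hmono (by linarith)
      _ = T := Real.rpow_one T)
  have hall' : ∀ P' X' : ℕ, X' ≤ X → ∑ p ∈ bigP P' X', (1 : ℝ) / p ≤ (1 + Ca) * l ^ 2 := by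
    intro P' X' h5
    have h6 : (X' : ℝ) ≤ T := le_trans (by exact_mod_cast h5) hXT
    refine (hall P' X' h6).trans ?_
    rw [hl2]
    nlinarith
  -- the weights
  have hbS : ∀ p : ℕ, p ≤ P → ¬ p ∈ bigP Y W := fun p hp h => by
    have := (mem_bP.1 h).2.1
    omega
  have hSP1 : ∀ {N' : ℕ} {b' : ℕ → ℂ}, Bs P N' b' → SP (fun p => ¬ p ∈ bigP Y W) b' := by
    intro N' b' hb'
    have hb1 : SP (fun p => p ≤ P) b' := fun n hn => by
      obtain ⟨h1, -, h3⟩ := hb' n hn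
      exact ⟨by omega, h3⟩
    exact SP_mono hbS hb1
  obtain ⟨N0, hN0⟩ : ∃ N0, N0 = N2 (M * N) (cv r b) := ⟨_, rfl⟩
  have hN0' : N0 = N2 M r * N2 N b := by
    rw [hN0]
    exact N2_cv hrS (hSP1 hb) hrlen hb.len le_rfl
  have hr0 : 0 < N2 M r := by linarith
  have hb0 : 0 < N2 N b := lt_of_lt_of_le (Real.exp_pos _) hbN
  have hN00 : 0 < N0 := by rw [hN0']; positivity
  have hMle : (M : ℝ) ≤ T ^ θ := by
    rw [hMeq]
    push_cast
    have hZf : (W : ℝ) ≤ (L ^ 2) ^ K' := by rw [hW]; exact Nat.floor_le (by positivity)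
    calc (((W : ℝ)) ^ 2) ^ K ≤ (((L ^ 2) ^ K') ^ 2) ^ K := by gcongr
      _ = Real.exp (K * (4 * K' * ll)) := by
          rw [hexpZ, ← pow_mul, ← Real.exp_nat_mul]
          congr 1
          push_cast
          ring
      _ ≤ Real.exp (θ * L) := Real.exp_le_exp.2 (len_cmp hKle hlogK1 hK'le hll0 hLL1' hV0 hVlo hLamV hc₂θ hL0)
      _ = T ^ θ := by rw [Real.rpow_def_of_pos hT0, ← hLd, mul_comm]
  have hMN : ((M * N : ℕ) : ℝ) ≤ T ^ (2 * θ) := by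
    push_cast
    calc (M : ℝ) * N ≤ T ^ θ * T ^ θ := by gcongr
      _ = T ^ (2 * θ) := by rw [← Real.rpow_add hT0]; congr 1; ring
  have hlen : ((X ^ 2 * (M * N) : ℕ) : ℝ) ≤ T ^ (1 / 4 : ℝ) := by
    rw [Nat.cast_mul]
    push_cast at hMN ⊢
    calc (X : ℝ) ^ 2 * (M * N) ≤ (T ^ δ) ^ 2 * T ^ (2 * θ) := by gcongr
      _ = T ^ (2 * δ + 2 * θ) := by
          rw [← Real.rpow_natCast, ← Real.rpow_mul hT0.le, ← Real.rpow_add hT0]
          congr 1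
          push_cast
          ring
      _ ≤ _ := hmono (by linarith)
  have hXsq : 1 ≤ X ^ 2 := Nat.one_le_pow _ _ hX1
  have hMN' : ((M * N : ℕ) : ℝ) ≤ T ^ (1 / 4 : ℝ) := by
    refine le_trans ?_ hlen
    exact_mod_cast Nat.le_mul_of_pos_left _ hXsq
  obtain ⟨F, hF⟩ : ∃ F : ℝ → ℝ, F = fun t => ‖dp (M * N) (cv r b) t‖ ^ 2 := ⟨_, rfl⟩
  have hFt : ∀ t, F t = ‖dp M r t‖ ^ 2 * ‖dp N b t‖ ^ 2 := by
    intro t
    rw [hF]
    change ‖dp (M * N) (cv r b) t‖ ^ 2 = _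
    rw [← hD.1 M N r b t hrlen hb.len, norm_mul, mul_pow]
  have hFc : Continuous F := by rw [hF]; exact (dp_c _ _).norm.pow 2
  have hF0 : ∀ t, 0 ≤ F t := fun t => by rw [hFt]; positivity
  have hF2 : ∫ t in T..(2 * T), F t ^ 2 ≤ 2 * T * (2 ^ K * (N2 M r) ^ 2 * N2 N b) := by
    have hlen4 : ((M * M * N : ℕ) : ℝ) ≤ T ^ (1 / 4 : ℝ) := by
      push_cast
      calc (M : ℝ) * M * N ≤ T ^ θ * T ^ θ * T ^ θ := by gcongr
        _ = T ^ (3 * θ) := by rw [← Real.rpow_add hT0, ← Real.rpow_add hT0]; congr 1; ring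
        _ ≤ _ := hmono (by linarith)
    have h5 := pint hT16 (SP_cv _ _ _ hrS hrS) (hSP1 hb) (cv_len _ _ _ _ hrlen hrlen) hb.len hlen4
    have h6 : ∫ t in T..(2 * T), F t ^ 2 ≤ ∫ t in T..(2 * T), ‖dp (M * M) (cv r r) t‖ ^ 2 * ‖dp N b t‖ ^ 2 := by
      refine intervalIntegral.integral_mono_on (by linarith) ((hFc.pow 2).intervalIntegrable _ _)
        ((((dp_c _ _).norm.pow 2).mul ((dp_c _ _).norm.pow 2)).intervalIntegrable _ _) fun t _ => ?_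
      rw [hFt, ← hD.1 M M r r t hrlen hrlen, norm_mul]
      have h7 : (‖dp N b t‖ ^ 2) ^ 2 ≤ ‖dp N b t‖ ^ 2 := by
        have := hb1 t
        have h8 : 0 ≤ ‖dp N b t‖ ^ 2 := by positivity
        nlinarith
      calc (‖dp M r t‖ ^ 2 * ‖dp N b t‖ ^ 2) ^ 2 = (‖dp M r t‖ * ‖dp M r t‖) ^ 2 * (‖dp N b t‖ ^ 2) ^ 2 := by ring
        _ ≤ (‖dp M r t‖ * ‖dp M r t‖) ^ 2 * ‖dp N b t‖ ^ 2 := mul_le_mul_of_nonneg_left h7 (by positivity)
    refine h6.trans (h5.trans ?_)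
    gcongr
  choose e he heS hde hNe using hcj
  have hNe' : ∀ j, N2 M (e j) ≤ C₁ * l ^ 2 * N2 M r := by
    intro j
    refine (hNe j).trans (mul_le_mul_of_nonneg_right ?_ (N2_nn _ _))
    have h5 := hall' Y W hWX
    rw [hC₁]
    linarith
  obtain ⟨g₁, hg₁⟩ : ∃ g₁ : Fin n → ℝ → ℝ, g₁ = fun j t =>
    gk2 (fun s => Real.log ‖zt s‖ - EP X s) l (α j) (x j) P Y W X t := ⟨_, rfl⟩
  obtain ⟨g₂, hg₂⟩ : ∃ g₂ : Fin n → ℝ → ℝ, g₂ = fun j t =>
    gk2 (fun s => az s - EA X s) l (α j) (x j) P Y W X t := ⟨_, rfl⟩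
  have hgd₁ : ∀ j t, |Real.log ‖zt (t + α j)‖ - EP P (t + α j) - (x j).re| ≤ g₁ j t := by
    intro j t
    rw [hg₁]
    exact gl_ge hl0 (x j) hPY hYW hWX t
  have hgd₂ : ∀ j t, |az (t + α j) - EA P (t + α j) - (x j).im| ≤ g₂ j t := by
    intro j t
    rw [hg₂]
    exact ga_ge hl0 (x j) hPY hYW hWX t
  have hg₁0 : ∀ j t, 0 ≤ g₁ j t := fun j t => (abs_nonneg _).trans (hgd₁ j t)
  have hg₂0 : ∀ j t, 0 ≤ g₂ j t := fun j t => (abs_nonneg _).trans (hgd₂ j t)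
  obtain ⟨g, hg⟩ : ∃ g : Fin n → ℝ → ℝ, g = fun j t => g₁ j t + g₂ j t := ⟨_, rfl⟩
  have hg0 : ∀ j t, 0 ≤ g j t := fun j t => by rw [hg]; exact add_nonneg (hg₁0 j t) (hg₂0 j t)
  have hgg : ∀ j t, g j t = g₁ j t + g₂ j t := fun j t => by rw [hg]
  have hgi₁ : ∀ j, IntervalIntegrable (fun t => g₁ j t * F t) volume T (2 * T) ∧
      ∫ t in T..(2 * T), g₁ j t * F t ≤
        (C₀ + 2 * (12 * S3 + 6) + 2 * (2 * (1 + Ca) + |C₁| + 2)) * l * (T * N0) := by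
    intro j
    rw [hg₁, hF, hN0]
    refine gk2_int hT16 hl1 (hα j) (x j) hYW hWX (fun b' => hTP (M * N) (hMN.trans (hmono (hθa.trans hθ31))) b') hrlen hrS
      (he j) (heS j) (fun t => ?_) hrsq (hNe' j) hb hPY hlen (hYW.trans hWX) hall' hX1
    rw [hde j t, sS_uu]
  have hgi₂ : ∀ j, IntervalIntegrable (fun t => g₂ j t * F t) volume T (2 * T) ∧
      ∫ t in T..(2 * T), g₂ j t * F t ≤
        (Ca₀ + 2 * (12 * S3 + 6) + 2 * (2 * (1 + Ca) + |C₁| + 2)) * l * (T * N0) := by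
    intro j
    rw [hg₂, hF, hN0]
    refine gk2_int hT16 hl1 (hα j) (x j) hYW hWX (fun b' => hTA (M * N) (hMN.trans (hmono (hθa.trans hθ32))) b') hrlen hrS
      (he j) (heS j) (fun t => ?_) hrsq (hNe' j) hb hPY hlen (hYW.trans hWX) hall' hX1
    rw [hde j t, sS_uu]
  have hgi : ∀ j, IntervalIntegrable (fun t => g j t * F t) volume T (2 * T) ∧
      ∫ t in T..(2 * T), g j t * F t ≤ Cg * l * (T * N0) := by
    intro j
    have e1 : (fun t => g j t * F t) = fun t => g₁ j t * F t + g₂ j t * F t := by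
      funext t
      rw [hgg]
      ring
    rw [e1]
    refine ⟨(hgi₁ j).1.add (hgi₂ j).1, ?_⟩
    rw [intervalIntegral.integral_add (hgi₁ j).1 (hgi₂ j).1, hCg]
    have k1 := (hgi₁ j).2
    have k2 := (hgi₂ j).2
    linarith
  obtain ⟨hf, hhf⟩ : ∃ hf : ℕ → ℝ → ℝ, hf = fun q t => 1 / L ^ 4 * (‖dp M r t‖ ^ 2 * ‖dp (Nq q) (bq q) t‖ ^ 2) :=
    ⟨_, rfl⟩
  have hhc : ∀ q, Continuous (hf q) := by
    intro q
    rw [hhf]
    exact continuous_const.mul (((dp_c _ _).norm.pow 2).mul ((dp_c _ _).norm.pow 2))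
  have hhS : ∑ q ∈ S, ∫ t in T..(2 * T), hf q t ≤ 1 / 16 * (T * N0) := by
    have h5 : ∀ q ∈ S, ∫ t in T..(2 * T), hf q t ≤ 2 * T * N2 M r * (1 / L ^ 4 * N2 (Nq q) (bq q)) := by
      intro q hq
      rw [hhf]
      change ∫ t in T..(2 * T), 1 / L ^ 4 * (‖dp M r t‖ ^ 2 * ‖dp (Nq q) (bq q) t‖ ^ 2) ≤ _
      rw [intervalIntegral.integral_const_mul]
      have h6 : ((M * Nq q : ℕ) : ℝ) ≤ T ^ (1 / 4 : ℝ) := by
        push_cast
        calc (M : ℝ) * Nq q ≤ T ^ θ * T ^ θ := by gcongr; exact (hq1 q hq).1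
          _ = T ^ (2 * θ) := by rw [← Real.rpow_add hT0]; congr 1; ring
          _ ≤ _ := hmono (by linarith)
      have h7 := pint hT16 hrS (hSP1 (hq1 q hq).2) hrlen (hq1 q hq).2.len h6
      calc 1 / L ^ 4 * ∫ t in T..(2 * T), ‖dp M r t‖ ^ 2 * ‖dp (Nq q) (bq q) t‖ ^ 2 ≤
          1 / L ^ 4 * (2 * T * (N2 M r * N2 (Nq q) (bq q))) := mul_le_mul_of_nonneg_left h7 (by positivity)
        _ = _ := by ring
    refine (Finset.sum_le_sum h5).trans ?_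
    rw [← Finset.mul_sum]
    calc 2 * T * N2 M r * ∑ q ∈ S, 1 / L ^ 4 * N2 (Nq q) (bq q) ≤ 2 * T * N2 M r * (1 / 32 * N2 N b) :=
          mul_le_mul_of_nonneg_left hq3 (by positivity)
      _ = 1 / 16 * (T * N0) := by rw [hN0']; ring
  have hlam0 : (0 : ℝ) < 8 * 2 ^ K * N2 M r := by positivity
  obtain ⟨E, hE⟩ : ∃ E, E = KE (C₅ * l) ε P z α x T := ⟨_, rfl⟩
  have hmk := mk2 (n := n) (T := T) (C := 1 / (C₅ * l)) (G := Cg * l * (T * N0)) (H := 1 / 16 * (T * N0))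
    (lam := 8 * 2 ^ K * N2 M r) hT0 hlam0 hFc hF2 (E := E) (by rw [hE]; exact KE_meas _ _ _ _ _ _ _)
    (by rw [hE]; exact Set.inter_subset_left.trans Set.inter_subset_left) g (fun j => (hgi j).1) (fun j => (hgi j).2)
    (fun j t => mul_nonneg (hg0 j t) (hF0 t)) (by positivity) (S := S) (h := hf)
    (fun q _ => hhc q) (fun q t => by rw [hhf]; positivity) hhS (by
      intro t ht1 ht2 hte
      by_cases hp : ∃ p : ℕ, p.Prime ∧ p ≤ P ∧ ε < ‖(p : ℂ) ^ (t * I) - z p‖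
      · right
        obtain ⟨p, hp1, hp2, hp3⟩ := hp
        obtain ⟨q, hq, hq5⟩ := hq2 t ⟨p, hp1, hp2, lt_of_le_of_lt hεε hp3⟩
        refine ⟨q, hq, ?_⟩
        rw [hFt, hhf]
        change ‖dp M r t‖ ^ 2 * ‖dp N b t‖ ^ 2 ≤ 1 / L ^ 4 * (‖dp M r t‖ ^ 2 * ‖dp (Nq q) (bq q) t‖ ^ 2)
        calc ‖dp M r t‖ ^ 2 * ‖dp N b t‖ ^ 2 ≤ ‖dp M r t‖ ^ 2 * (1 / L ^ 4 * ‖dp (Nq q) (bq q) t‖ ^ 2) :=
              mul_le_mul_of_nonneg_left hq5 (by positivity)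
          _ = _ := by ring
      · left
        push Not at hp
        have h5 : ∃ j, C₅ * l < g j t := by
          by_contra h6
          push Not at h6
          apply hte
          rw [hE]
          refine ⟨⟨⟨ht1, ht2⟩, fun j => ?_, hp⟩, fun j => ?_⟩
          · have h8 := h6 j
            rw [hgg] at h8
            exact (hgd₁ j t).trans (by linarith [hg₂0 j t])
          · have h8 := h6 j
            rw [hgg] at h8
            exact (hgd₂ j t).trans (by linarith [hg₁0 j t])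
        obtain ⟨j, hj⟩ := h5
        refine ⟨j, ?_⟩
        have h6 : 1 ≤ 1 / (C₅ * l) * g j t := by
          rw [one_div, ← div_eq_inv_mul, one_le_div (by positivity)]
          exact hj.le
        calc F t ≤ 1 / (C₅ * l) * g j t * F t := le_mul_of_one_le_left (hF0 t) h6
          _ = _ := by ring)
  have hlow := (Pool.Agent.Q84.UM.t_MVL T hT16 (M * N) hMN' (cv r b)).1
  rw [← hN0] at hlow
  have hFeq : ∫ t in T..(2 * T), ‖dp (M * N) (cv r b) t‖ ^ 2 = ∫ t in T..(2 * T), F t := by rw [hF]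
  rw [hFeq] at hlow
  have h6 : 1 / (C₅ * l) * (n * (Cg * l * (T * N0))) ≤ 1 / 8 * (T * N0) := by
    have h7 : 1 / (C₅ * l) * (n * (Cg * l * (T * N0))) = (n / (n + 1)) * (1 / 8 * (T * N0)) := by
      rw [hC₅]
      field_simp
    rw [h7]
    refine mul_le_of_le_one_left (by positivity) ?_
    rw [div_le_one (by positivity)]
    linarith
  have hTN : 0 < T * N0 := by positivity
  have h7 : 1 / (2 * (8 * 2 ^ K * N2 M r)) * (2 * T * (2 ^ K * (N2 M r) ^ 2 * N2 N b)) = 1 / 8 * (T * N0) := by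
    rw [hN0']
    field_simp
  rw [h7] at hmk
  have h8 : 1 / 8 * (T * N0) ≤ 8 * 2 ^ K * N2 M r / 2 * volume.real E := by linarith
  have h9 : T * N2 N b ≤ 32 * 2 ^ K * volume.real E := by
    rw [hN0'] at h8
    have h10 : N2 M r * (T * N2 N b) ≤ N2 M r * (32 * 2 ^ K * volume.real E) := by linarith
    exact le_of_mul_le_mul_left h10 hr0
  have hsub : E ⊆ KE (C₆ * l) ε P z α x T := by
    rw [hE]
    have h10 : C₅ * l ≤ C₆ * l := mul_le_mul_of_nonneg_right hC₆ hl0.le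
    rintro t ⟨⟨h11, h12, h13⟩, h14⟩
    exact ⟨⟨h11, fun j => (h12 j).trans h10, h13⟩, fun j => (h14 j).trans h10⟩
  have hfin : volume (KE (C₆ * l) ε P z α x T) ≠ ⊤ := by
    have h10 : KE (C₆ * l) ε P z α x T ⊆ Set.Ioc T (2 * T) := Set.inter_subset_left.trans Set.inter_subset_left
    exact ((measure_mono h10).trans_lt measure_Ioc_lt_top).ne
  refine le_trans ?_ (measureReal_mono hsub hfin)
  have hvE : 0 ≤ volume.real E := measureReal_nonneg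
  rw [← hLam]
  exact fin_cmp hT0 hvE hbN h9 hKle hlogK1 hlogLam hlogLam0 hVlog hC₆a hC₆b hP0 hLL1' (by positivity)
    (by rw [hll, hLd]; exact hLLε)

end

end Run7.h311.OL
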