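import Pool.Agent.Run7.h311.OL.Phs2
import Pool.Agent.Q47.UM10.PPL
import Pool.Agent.Q47.UM10.KR2

set_option autoImplicit false

/-! Polynomials that detect prescribed phases of the small primes (after `Q47/UM10/KR2.lean`). -/

namespace Run7.h311.OL

open Filter Topology MeasureTheory Complex
open Pool.Agent.Q97.UM Pool.Agent.Q14.UM Run7.h311.LW Run7.h311.OM

noncomputable section

theorem phases3 {ε θ ρ : ℝ} (hε : 0 < ε) (hε1 : ε ≤ 1) (hθ : 0 < θ) (hθ1 : θ ≤ 1) (hρ : 0 < ρ) : ∃ κ : ℝ, 0 < κ ∧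
    κ ≤ 1 ∧ ∀ᶠ T : ℝ in atTop, ∀ P : ℕ, P * Real.log (Real.log T) ≤ κ * Real.log T → ∀ z : ℕ → ℂ, (∀ p, ‖z p‖ = 1) →
      ∃ (N : ℕ) (b : ℕ → ℂ) (S : Finset ℕ) (Nq : ℕ → ℕ) (bq : ℕ → ℕ → ℂ), (N : ℝ) ≤ T ^ θ ∧ Bs P N b ∧
        Real.exp (-(P * Real.log (35 / ε ^ 2 * Real.log (Real.log T)))) ≤ N2 N b ∧ (∀ t : ℝ, ‖dp N b t‖ ^ 2 ≤ 1) ∧ (∀ q ∈ S, (Nq q : ℝ) ≤ T ^ θ ∧ Bs P (Nq q) (bq q)) ∧
        (∀ t : ℝ, (∃ p : ℕ, p.Prime ∧ p ≤ P ∧ ε < ‖(p : ℂ) ^ (t * I) - z p‖) →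
          ∃ q ∈ S, ‖dp N b t‖ ^ 2 ≤ 1 / Real.log T ^ 4 * ‖dp (Nq q) (bq q) t‖ ^ 2) ∧
        ∑ q ∈ S, 1 / Real.log T ^ 4 * N2 (Nq q) (bq q) ≤ ρ * N2 N b := by
  have hPD := Pool.Agent.Q84.UM.t_DPM
  obtain ⟨κ, hκ⟩ : ∃ κ, κ = θ * ε ^ 2 / 100 := ⟨_, rfl⟩
  have hκ0 : 0 < κ := by rw [hκ]; positivity
  have hε2 : ε ^ 2 ≤ 1 := pow_le_one₀ hε.le hε1
  have hκ1 : κ ≤ 1 := by
    rw [hκ]
    nlinarith [sq_nonneg ε]
  refine ⟨κ, hκ0, hκ1, ?_⟩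
  have tL : Tendsto Real.log atTop atTop := Real.tendsto_log_atTop
  have tLL : Tendsto (fun T => Real.log (Real.log T)) atTop atTop := tL.comp tL
  have hεp : 0 < ε ^ 2 := by positivity
  filter_upwards [tL.eventually_ge_atTop 100, tLL.eventually_ge_atTop 1,
    tL.eventually_ge_atTop (35 / ε ^ 2 / ρ),
    eventually_ge_atTop (1 : ℝ)] with T hL hLL hLε hT1 P hPT z hz
  obtain ⟨L, hLdef⟩ : ∃ L, L = Real.log T := ⟨_, rfl⟩
  obtain ⟨l, hldef⟩ : ∃ l, l = Real.log L := ⟨_, rfl⟩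
  rw [← hLdef] at hL hLL hLε hPT ⊢
  rw [← hldef] at hLL hPT ⊢
  have hT0 : 0 < T := by linarith
  have hL0 : 0 < L := by linarith
  have hl0 : 0 < l := by linarith
  have hlL : l ≤ L := by
    rw [hldef]
    exact (Real.log_le_sub_one_of_pos hL0).trans (by linarith)
  have hexpL : Real.exp L = T := by rw [hLdef, Real.exp_log hT0]
  have hexpl : Real.exp l = L := by rw [hldef, Real.exp_log hL0]
  -- m
  obtain ⟨m, hm⟩ : ∃ m : ℕ, m = ⌈16 * l / ε ^ 2⌉₊ := ⟨_, rfl⟩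
  have hm1 : 16 * l / ε ^ 2 ≤ m := by rw [hm]; exact Nat.le_ceil _
  have hm2 : (m : ℝ) ≤ 17 * l / ε ^ 2 := by
    have h1 : (m : ℝ) < 16 * l / ε ^ 2 + 1 := by rw [hm]; exact Nat.ceil_lt_add_one (by positivity)
    have h2 : 1 ≤ l / ε ^ 2 := by rw [le_div_iff₀ hεp]; linarith
    have h3 : 17 * l / ε ^ 2 = 16 * l / ε ^ 2 + l / ε ^ 2 := by ring
    linarith
  have hm3 : (2 * m + 1 : ℝ) ≤ 35 / ε ^ 2 * l := by
    have h2 : 1 ≤ l / ε ^ 2 := by rw [le_div_iff₀ hεp]; linarith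
    have h3 : 35 / ε ^ 2 * l = 2 * (17 * l / ε ^ 2) + l / ε ^ 2 := by ring
    linarith
  -- P
  have hP0 : (0 : ℝ) ≤ P := Nat.cast_nonneg P
  have hPl : (P : ℝ) ≤ L :=
    (le_mul_of_one_le_right hP0 hLL).trans (hPT.trans (mul_le_of_le_one_left hL0.le hκ1))
  -- the primes
  obtain ⟨S, hSdef⟩ : ∃ S : Finset ℕ, S = (Finset.range (P + 1)).filter Nat.Prime := ⟨_, rfl⟩
  have hSp : ∀ p ∈ S, p.Prime := fun p hp => by
    rw [hSdef] at hp; exact (Finset.mem_filter.1 hp).2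
  have hScard : (S.card : ℝ) ≤ P := by
    have h1 : S ⊆ Finset.Icc 1 P := by
      intro p hp
      have h2 := hSp p hp
      rw [hSdef, Finset.mem_filter, Finset.mem_range] at hp
      rw [Finset.mem_Icc]
      exact ⟨h2.one_lt.le, by omega⟩
    have h2 := Finset.card_le_card h1
    rw [Nat.card_Icc] at h2
    exact_mod_cast (by omega : S.card ≤ P)
  have hprod : (((∏ p ∈ S, p) ^ m : ℕ) : ℝ) ≤ T ^ θ := by
    have h1 : ∏ p ∈ S, p ≤ 4 ^ P := by rw [hSdef]; exact primorial_le_four_pow P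
    have h2 : (((∏ p ∈ S, p) ^ m : ℕ) : ℝ) ≤ ((4 : ℝ) ^ P) ^ m := by
      have := Nat.pow_le_pow_left h1 m
      exact_mod_cast this
    refine h2.trans ?_
    have h4 := Pool.Agent.Q47.UM10.four_le_exp
    have h6 : ((4 : ℝ) ^ P) ^ m ≤ (Real.exp 2) ^ (P * m) := by
      rw [← pow_mul]
      exact pow_le_pow_left₀ (by norm_num) h4 _
    refine h6.trans ?_
    rw [← Real.exp_nat_mul, ← hexpL, ← Real.exp_mul, Real.exp_le_exp, Nat.cast_mul]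
    have h7 : (P : ℝ) * m ≤ (P : ℝ) * (17 * l / ε ^ 2) := mul_le_mul_of_nonneg_left hm2 hP0
    have h8 : (P : ℝ) * (17 * l / ε ^ 2) = 17 / ε ^ 2 * (P * l) := by ring
    have h9 : 17 / ε ^ 2 * (P * l) ≤ 17 / ε ^ 2 * (κ * L) :=
      mul_le_mul_of_nonneg_left hPT (by positivity)
    have h10 : 17 / ε ^ 2 * (κ * L) = 17 / 100 * (θ * L) := by
      rw [hκ]; field_simp
    have h11 : 0 < θ * L := by positivity
    linarith
  have hprod' : ∀ q ∈ S, (((∏ p ∈ S.erase q, p) ^ m : ℕ) : ℝ) ≤ T ^ θ := by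
    intro q hq
    refine le_trans ?_ hprod
    have h1 : ∏ p ∈ S.erase q, p ≤ ∏ p ∈ S, p := by
      rw [← Finset.mul_prod_erase S (fun p => p) hq]
      exact Nat.le_mul_of_pos_left _ (hSp q hq).pos
    exact_mod_cast Nat.pow_le_pow_left h1 m
  -- the polynomials
  obtain ⟨b, hb1, hb2, hb3⟩ := Pool.Agent.Q47.UM10.ppl_aux hPD m z hz S hSp
  have hSP : ∀ p ∈ S, p ≤ P := by
    intro p hp
    rw [hSdef, Finset.mem_filter, Finset.mem_range] at hp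
    omega
  have hBs : Bs P ((∏ p ∈ S, p) ^ m) b := fun n hn =>
    ⟨(hb1 n hn).1, (hb1 n hn).2.1, fun r hr hrn => hSP r ((hb1 n hn).2.2 r hr hrn)⟩
  have hPq : ∀ q ∈ S, ∃ bq : ℕ → ℂ, Bs P ((∏ p ∈ S.erase q, p) ^ m) bq ∧
      (∀ t : ℝ, ‖dp ((∏ p ∈ S.erase q, p) ^ m) bq t‖ ^ 2 =
        ∏ p ∈ S.erase q, (1 - ‖z p * (p : ℂ) ^ (-(t * I)) - 1‖ ^ 2 / 4) ^ m) ∧
      N2 ((∏ p ∈ S.erase q, p) ^ m) bq = ((Nat.choose (2 * m) m : ℝ) / 4 ^ m) ^ (S.erase q).card := by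
    intro q hq
    obtain ⟨bq, h1, h2, h3⟩ := Pool.Agent.Q47.UM10.ppl_aux hPD m z hz (S.erase q)
      (fun p hp => hSp p (Finset.mem_of_mem_erase hp))
    exact ⟨bq, fun n hn => ⟨(h1 n hn).1, (h1 n hn).2.1, fun r hr hrn =>
      hSP r (Finset.mem_of_mem_erase ((h1 n hn).2.2 r hr hrn))⟩, h2, h3⟩
  choose! bq hbq1 hbq2 hbq3 using hPq
  obtain ⟨N, hN⟩ : ∃ N, N = N2 ((∏ p ∈ S, p) ^ m) b := ⟨_, rfl⟩
  obtain ⟨c, hc⟩ : ∃ c : ℝ, c = (Nat.choose (2 * m) m : ℝ) / 4 ^ m := ⟨_, rfl⟩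
  have h4m : (0 : ℝ) < 4 ^ m := by positivity
  have hm0 : (0 : ℝ) ≤ m := Nat.cast_nonneg m
  have hc0 : 0 < c := by
    rw [hc]
    have : 0 < Nat.choose (2 * m) m := Nat.choose_pos (by omega)
    have : (0 : ℝ) < Nat.choose (2 * m) m := by exact_mod_cast this
    positivity
  have hc1 : 1 ≤ (2 * m + 1) * c := by
    have h1 : ((4 ^ m : ℕ) : ℝ) ≤ (((2 * m + 1) * Nat.choose (2 * m) m : ℕ) : ℝ) := by
      exact_mod_cast Nat.four_pow_le_two_mul_add_one_mul_central_binom m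
    push_cast at h1
    rw [hc, mul_div_assoc', le_div_iff₀ h4m, one_mul]
    exact h1
  rw [← hN, ← hc] at hb3
  have hN0 : 0 < N := by rw [hb3]; positivity
  have hNq : ∀ q ∈ S, N2 ((∏ p ∈ S.erase q, p) ^ m) (bq q) ≤ (2 * m + 1) * N := by
    intro q hq
    rw [hbq3 q hq, ← hc, hb3, ← Finset.card_erase_add_one hq, pow_succ]
    have h1 : 0 < c ^ (S.erase q).card := by positivity
    calc c ^ (S.erase q).card ≤ c ^ (S.erase q).card * ((2 * m + 1) * c) :=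
          le_mul_of_one_le_right h1.le hc1
      _ = (2 * m + 1) * (c ^ (S.erase q).card * c) := by ring
  -- the factors
  have hx : ∀ p ∈ S, ∀ t : ℝ, 0 ≤ 1 - ‖z p * (p : ℂ) ^ (-(t * I)) - 1‖ ^ 2 / 4 ∧
      1 - ‖z p * (p : ℂ) ^ (-(t * I)) - 1‖ ^ 2 / 4 ≤ 1 := by
    intro p hp t
    have h1 : ‖(p : ℂ) ^ (-(t * I))‖ = 1 := by
      rw [Complex.norm_natCast_cpow_of_pos (hSp p hp).pos]
      simp
    have h2 : ‖z p * (p : ℂ) ^ (-(t * I)) - 1‖ ≤ 2 := by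
      refine (norm_sub_le _ _).trans ?_
      rw [norm_mul, hz, h1, norm_one]
      norm_num
    exact Pool.Agent.Q47.UM10.fac_bounds (norm_nonneg _) h2
  have hL4 : (0 : ℝ) < L ^ 4 := by positivity
  refine ⟨(∏ p ∈ S, p) ^ m, b, S, fun q => (∏ p ∈ S.erase q, p) ^ m, bq, hprod, hBs, ?_, ?_,
    fun q hq => ⟨hprod' q hq, hbq1 q hq⟩, ?_, ?_⟩
  · rw [← hN, hb3]
    have h1 : (1 / (2 * m + 1 : ℝ)) ≤ c := by
      rw [div_le_iff₀ (by positivity)]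
      linarith
    have h2 : (1 / (2 * m + 1 : ℝ)) ^ S.card ≤ c ^ S.card := pow_le_pow_left₀ (by positivity) h1 _
    refine le_trans ?_ h2
    have h3 : (1 / (2 * m + 1 : ℝ)) = Real.exp (-Real.log (2 * m + 1)) := by
      rw [Real.exp_neg, Real.exp_log (by positivity), one_div]
    rw [h3, ← Real.exp_nat_mul, Real.exp_le_exp]
    have h4 : 0 ≤ Real.log (2 * m + 1) := Real.log_nonneg (by linarith)
    have h5 : Real.log (2 * m + 1) ≤ Real.log (35 / ε ^ 2 * l) := Real.log_le_log (by positivity) hm3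
    have h6 : (S.card : ℝ) * Real.log (2 * m + 1) ≤ P * Real.log (35 / ε ^ 2 * l) :=
      mul_le_mul hScard h5 h4 hP0
    linarith
  · intro t
    rw [hb2]
    exact Finset.prod_le_one (fun p hp => pow_nonneg (hx p hp _).1 _)
      fun p hp => pow_le_one₀ (hx p hp _).1 (hx p hp _).2
  · rintro t ⟨q, hqp, hqP, hqε⟩
    have hqS : q ∈ S := by
      rw [hSdef, Finset.mem_filter, Finset.mem_range]
      exact ⟨by omega, hqp⟩
    refine ⟨q, hqS, ?_⟩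
    change ‖dp ((∏ p ∈ S, p) ^ m) b t‖ ^ 2 ≤ 1 / L ^ 4 * ‖dp ((∏ p ∈ S.erase q, p) ^ m) (bq q) t‖ ^ 2
    rw [hb2, hbq2 q hqS, ← Finset.mul_prod_erase S _ hqS]
    refine mul_le_mul_of_nonneg_right ?_ (Finset.prod_nonneg fun p hp =>
      pow_nonneg (hx p (Finset.mem_of_mem_erase hp) _).1 _)
    rw [← Pool.Agent.Q47.UM10.norm_tw hqp.pos] at hqε
    obtain ⟨y, hy⟩ : ∃ y, y = ‖z q * (q : ℂ) ^ (-(t * I)) - 1‖ := ⟨_, rfl⟩
    have hx' := (hx q hqS t).1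
    rw [← hy] at hqε hx' ⊢
    have h1 : 1 - y ^ 2 / 4 ≤ Real.exp (-(ε ^ 2 / 4)) := by
      have h2 := Real.add_one_le_exp (-(ε ^ 2 / 4))
      have h3 : ε ^ 2 ≤ y ^ 2 := pow_le_pow_left₀ hε.le hqε.le 2
      linarith
    calc (1 - y ^ 2 / 4) ^ m ≤ (Real.exp (-(ε ^ 2 / 4))) ^ m := pow_le_pow_left₀ hx' h1 m
      _ = Real.exp (m * (-(ε ^ 2 / 4))) := (Real.exp_nat_mul _ _).symm
      _ ≤ Real.exp (-(4 * l)) := by
          rw [Real.exp_le_exp]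
          rw [div_le_iff₀ hεp] at hm1
          linarith
      _ = 1 / L ^ 4 := by
          rw [Real.exp_neg, one_div, ← hexpl, ← Real.exp_nat_mul]
          norm_num
  · rw [← hN]
    have h1 : ∑ q ∈ S, 1 / L ^ 4 * N2 ((∏ p ∈ S.erase q, p) ^ m) (bq q) ≤ ∑ _q ∈ S, 1 / L ^ 4 * ((2 * m + 1) * N) :=
      Finset.sum_le_sum fun q hq => mul_le_mul_of_nonneg_left (hNq q hq) (by positivity)
    refine h1.trans ?_
    rw [Finset.sum_const, nsmul_eq_mul]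
    have h2 : (S.card : ℝ) ≤ L := hScard.trans hPl
    have h3 : (2 * m + 1 : ℝ) ≤ ρ * L ^ 3 := by
      refine hm3.trans ?_
      have h3 : 35 / ε ^ 2 * l ≤ 35 / ε ^ 2 * L := mul_le_mul_of_nonneg_left hlL (by positivity)
      have h4 : 35 / ε ^ 2 ≤ ρ * L := by
        rw [div_le_iff₀ hρ] at hLε
        linarith
      have h5 : 35 / ε ^ 2 * L ≤ ρ * L * L := mul_le_mul_of_nonneg_right h4 hL0.le
      have h6 : ρ * L * L ≤ ρ * L * L * L := le_mul_of_one_le_right (by positivity) (by linarith)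
      have h7 : ρ * L * L * L = ρ * L ^ 3 := by ring
      linarith
    calc (S.card : ℝ) * (1 / L ^ 4 * ((2 * m + 1) * N)) ≤ L * (1 / L ^ 4 * (ρ * L ^ 3 * N)) := by gcongr
      _ = ρ * N := by field_simp

end

end Run7.h311.OL
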