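import Pool.Agent.Run7.h311.OL.Zr
import Pool.Agent.Run7.h311.OL.Phs3

set_option autoImplicit false

/-! Large deviations of the derivative at the isolated simple zeros, with prescribed phases of the small primes. -/

namespace Run7.h311.OL

open Filter Topology MeasureTheory Complex
open Pool.Agent.Q97.UM Pool.Agent.Q14.UM Run7.h311.LW Run7.h311.OM Run7.h311.OA
open Pool.Agent.Q98.UM (S3 S3_nonneg)

noncomputable section

/-- Markov's inequality and Cauchy-Schwarz for finite sums -/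
theorem mkz {S : Finset ℂ} {E : Finset ℂ} (hES : E ⊆ S) {F g : ℂ → ℝ} {h : ℕ → ℂ → ℝ} {Q : Finset ℕ}
    {lam c I4 G H : ℝ} (hlam : 0 < lam) (hI4 : ∑ s ∈ S, F s ^ 2 ≤ I4) (hG : ∑ s ∈ S, g s * F s ≤ G) (hc : 0 ≤ c)
    (hg0 : ∀ s, 0 ≤ g s * F s) (hh0 : ∀ q s, 0 ≤ h q s) (hH : ∑ q ∈ Q, ∑ s ∈ S, h q s ≤ H)
    (hpt : ∀ s ∈ S, s ∉ E → F s ≤ c * (g s * F s) ∨ ∃ q ∈ Q, F s ≤ h q s) :
    ∑ s ∈ S, F s ≤ lam / 2 * (E.card : ℝ) + 1 / (2 * lam) * I4 + c * G + H := by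
  classical
  have h1 : ∀ s ∈ S, F s ≤ (if s ∈ E then lam / 2 else 0) + 1 / (2 * lam) * F s ^ 2 + c * (g s * F s) +
      ∑ q ∈ Q, h q s := by
    intro s hs
    have k1 : 0 ≤ ∑ q ∈ Q, h q s := Finset.sum_nonneg fun q _ => hh0 q s
    have k2 : 0 ≤ c * (g s * F s) := mul_nonneg hc (hg0 s)
    have k3 : 0 ≤ 1 / (2 * lam) * F s ^ 2 := by positivity
    by_cases hsE : s ∈ E
    · rw [if_pos hsE]
      have h5 : lam / 2 + 1 / (2 * lam) * F s ^ 2 - F s = (lam - F s) ^ 2 / (2 * lam) := by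
        field_simp
        ring
      have h6 : 0 ≤ (lam - F s) ^ 2 / (2 * lam) := by positivity
      linarith
    · rw [if_neg hsE]
      rcases hpt s hs hsE with h2 | ⟨q, hq, h2⟩
      · linarith
      · have h3 := Finset.single_le_sum (f := fun q => h q s) (fun q _ => hh0 q s) hq
        have h4 : h q s ≤ ∑ q ∈ Q, h q s := h3
        linarith
  refine (Finset.sum_le_sum h1).trans ?_
  rw [Finset.sum_add_distrib, Finset.sum_add_distrib, Finset.sum_add_distrib, ← Finset.mul_sum, ← Finset.mul_sum,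
    Finset.sum_comm (s := S)]
  have e1 : ∑ s ∈ S, (if s ∈ E then lam / 2 else 0) = lam / 2 * (E.card : ℝ) := by
    rw [Finset.sum_ite_mem, Finset.inter_eq_right.2 hES, Finset.sum_const, nsmul_eq_mul, mul_comm]
  rw [e1]
  have e2 : 1 / (2 * lam) * ∑ s ∈ S, F s ^ 2 ≤ 1 / (2 * lam) * I4 := mul_le_mul_of_nonneg_left hI4 (by positivity)
  have e3 : c * ∑ s ∈ S, g s * F s ≤ c * G := mul_le_mul_of_nonneg_left hG hc
  linarith

/-- the zeros of the theorem -/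
def ZE (D ε : ℝ) (P : ℕ) (z : ℕ → ℂ) (x d T : ℝ) : Finset ℂ := by
  classical
  exact (ZI d T).filter (fun s => |AA P T s - x| ≤ D ∧ ∀ p : ℕ, p.Prime → p ≤ P → ‖(p : ℂ) ^ (s.im * I) - z p‖ ≤ ε)

/-- **large deviations of the derivative at the isolated simple zeros, with prescribed phases of the small primes** -/
theorem zld {ε : ℝ} (hε : 0 < ε) : ∃ d c C : ℝ, 0 < d ∧ d ≤ 1 ∧ 0 < c ∧ 0 < C ∧
    ∀ᶠ T : ℝ in atTop, ∀ (P : ℕ) (z : ℕ → ℂ) (x V : ℝ),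
      P * Real.log (Real.log T) ≤ c * Real.log T → (∀ p, ‖z p‖ = 1) →
      Real.sqrt (Real.log (Real.log T)) ≤ V → V ≤ c * Real.sqrt (Real.log T / Real.log (Real.log T)) → |x| ≤ V →
      T * Real.exp (-(C * (V ^ 2 / Real.log (Real.log T / (V ^ 2 * Real.log (Real.log T))) +
        P * Real.log (Real.log (Real.log T))))) ≤
        ((ZE (C * Real.sqrt (Real.log (Real.log T))) ε P z x d T).card : ℝ) := by
  classical
  have hD := Pool.Agent.Q84.UM.t_DPM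
  have hS3 := S3_nonneg
  obtain ⟨θ₁, δ₁, hθ₁, hδ₁, hTD⟩ := b_THD 1
  obtain ⟨θ₂, hθ₂, hθ₂1, hSA⟩ := b_SAMP 1 one_pos
  obtain ⟨d, θ₃, hd0, hd1, hθ₃, hθ₃1, hSI⟩ := b_SAMPI (1 / 10) (by norm_num)
  obtain ⟨θm, hθm, hm1, hm2, hm3⟩ : ∃ θm : ℝ, 0 < θm ∧ θm ≤ θ₁ ∧ θm ≤ θ₂ ∧ θm ≤ θ₃ :=
    ⟨min θ₁ (min θ₂ θ₃), by positivity, min_le_left _ _, (min_le_right _ _).trans (min_le_left _ _),
      (min_le_right _ _).trans (min_le_right _ _)⟩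
  obtain ⟨θ, hθ⟩ : ∃ θ, θ = θm / 4 := ⟨_, rfl⟩
  have hθ0 : 0 < θ := by rw [hθ]; positivity
  obtain ⟨δ, hδ, hδ1, hδ2⟩ : ∃ δ : ℝ, 0 < δ ∧ δ ≤ δ₁ ∧ δ ≤ θm / 8 :=
    ⟨min δ₁ (θm / 8), by positivity, min_le_left _ _, min_le_right _ _⟩
  obtain ⟨C₀, hC₀, hTD⟩ := hTD δ d hδ hδ1 hd0
  obtain ⟨c₀, hc₀⟩ : ∃ c₀ : ℝ, c₀ = (2 - H370.cMTinv - 1 / 10) / (2 * Real.pi) := ⟨_, rfl⟩
  have hpi := Real.pi_pos
  have hc₀0 : 0 < c₀ := by
    rw [hc₀]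
    have := H370.cMTinv_lt
    refine div_pos ?_ (by positivity)
    linarith
  obtain ⟨K₀, hK₀3, hcore⟩ := core2 1 (κ := 1) (A := 1) one_pos
  obtain ⟨Ca, hCa, hall⟩ := all_le
  obtain ⟨ε', hε', hε'1, hεε⟩ : ∃ ε' : ℝ, 0 < ε' ∧ ε' ≤ 1 ∧ ε' ≤ ε :=
    ⟨min ε 1, lt_min hε one_pos, min_le_right _ _, min_le_left _ _⟩
  obtain ⟨κ₂, hκ₂, hκ₂1, hphs⟩ := phases3 (ρ := c₀ / 16) hε' hε'1 hθ0 (by linarith : θ ≤ 1) (by positivity)
  obtain ⟨C₁, hC₁⟩ : ∃ C₁, C₁ = 3 * (1 + Ca) := ⟨_, rfl⟩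
  have hC₁0 : 0 ≤ C₁ := by rw [hC₁]; positivity
  obtain ⟨Cg, hCg⟩ : ∃ Cg, Cg = C₀ + 2 * (12 * S3 + 6) + 2 * (2 * (1 + Ca) + |C₁| + 2) := ⟨_, rfl⟩
  have hCg0 : 0 < Cg := by rw [hCg]; positivity
  obtain ⟨C₅, hC₅⟩ : ∃ C₅, C₅ = 8 * Cg / c₀ := ⟨_, rfl⟩
  have hC₅0 : 0 < C₅ := by rw [hC₅]; positivity
  -- the constants
  obtain ⟨c₂, hc₂0, hc₂1, hc₂θ, hc₂δ⟩ : ∃ c₂ : ℝ, 0 < c₂ ∧ c₂ ≤ 1 ∧ 4 * c₂ * (64 * ((1 : ℕ) : ℝ) ^ 2 + 1) ≤ θ ∧
      2 * c₂ ≤ δ := by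
    refine ⟨min 1 (min (θ / 260) (δ / 2)), by positivity, min_le_left _ _, ?_, ?_⟩
    · have h1 : min 1 (min (θ / 260) (δ / 2)) ≤ θ / 260 := (min_le_right _ _).trans (min_le_left _ _)
      push_cast
      linarith
    · have h1 : min 1 (min (θ / 260) (δ / 2)) ≤ δ / 2 := (min_le_right _ _).trans (min_le_right _ _)
      linarith
  have hK₀0 : (0 : ℝ) ≤ K₀ := Nat.cast_nonneg _
  obtain ⟨c₃, hc₃0, hc₃1, hc₃⟩ : ∃ c₃ : ℝ, 0 < c₃ ∧ c₃ ≤ 1 ∧ c₃ * (K₀ + 2) ≤ c₂ := by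
    refine ⟨min 1 (c₂ / (K₀ + 2)), by positivity, min_le_left _ _, ?_⟩
    have h1 := min_le_right 1 (c₂ / ((K₀ : ℝ) + 2))
    rw [le_div_iff₀ (by positivity)] at h1
    exact h1
  obtain ⟨C₆, hC₆, hC₆a, hC₆b⟩ : ∃ C₆ : ℝ, C₅ ≤ C₆ ∧ 128 * ((1 : ℕ) : ℝ) ^ 2 + 5 ≤ C₆ ∧ 2 ≤ C₆ :=
    ⟨max C₅ (max (128 * ((1 : ℕ) : ℝ) ^ 2 + 5) 2), le_max_left _ _, (le_max_left _ _).trans (le_max_right _ _),
      (le_max_right _ _).trans (le_max_right _ _)⟩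
  have hC₆0 : 0 < C₆ := by linarith
  refine ⟨d, min c₃ κ₂, C₆, hd0, hd1, by positivity, hC₆0, ?_⟩
  have tL : Tendsto Real.log atTop atTop := Real.tendsto_log_atTop
  have tLL : Tendsto (fun T => Real.log (Real.log T)) atTop atTop := tL.comp tL
  filter_upwards [hTD, hSA, hSI, hcore, hall, hphs, tL.eventually_ge_atTop 3, tL.eventually_ge_atTop (1 / c₀ ^ 2),
    tLL.eventually_ge_atTop 1, tLL.eventually_ge_atTop (35 / ε' ^ 2), eventually_ge_atTop (16 : ℝ)] with T hTD hSA hSI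
    hcore hall hphs hL3 hLc hLL1 hLLε hT16 P z x V hP hz hVlo hVhi hx
  have hT0 : 0 < T := by linarith
  have hT1 : 1 ≤ T := by linarith
  have hmono : ∀ {x y : ℝ}, x ≤ y → T ^ x ≤ T ^ y := fun h => Real.rpow_le_rpow_of_exponent_le hT1 h
  obtain ⟨L, hLd⟩ : ∃ L, L = Real.log T := ⟨_, rfl⟩
  have hL0 : 0 < L := by linarith
  have hPκ : P * Real.log (Real.log T) ≤ κ₂ * Real.log T := by
    refine hP.trans (mul_le_mul_of_nonneg_right (min_le_right _ _) ?_)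
    linarith
  have hVc : V ≤ c₃ * Real.sqrt (Real.log T / Real.log (Real.log T)) :=
    hVhi.trans (mul_le_mul_of_nonneg_right (min_le_left _ _) (Real.sqrt_nonneg _))
  rw [← hLd] at hVc hVlo
  obtain ⟨ll, hll⟩ : ∃ ll, ll = Real.log L := ⟨_, rfl⟩
  rw [← hll] at hVc hVlo
  have hLL1' : 1 ≤ ll := by rw [hll, hLd]; exact hLL1
  have hll0 : 0 < ll := by linarith
  obtain ⟨Lam, K', hLam, hLamV, hK'K, hK'le, hlogK1, hlogLam, hlogLam0, hVlog, hVL, hKL, hV0⟩ :=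
    par hc₂0 hc₂1 hc₃0 hc₃1 hc₃ hK₀3 hL0 hll hLL1' hVlo hVc
  have hexpZ : (L ^ 2) ^ K' = Real.exp (K' * (2 * ll)) := by
    rw [hll, Real.exp_nat_mul, show (2 : ℝ) * Real.log L = ((2 : ℕ) : ℝ) * Real.log L by norm_num,
      Real.exp_nat_mul, Real.exp_log hL0]
  have hpw : (Real.log T ^ 2) ^ K' ≤ T ^ δ := by
    rw [← hLd, hexpZ, Real.rpow_def_of_pos hT0, ← hLd]
    apply Real.exp_le_exp.2
    refine hKL.trans ?_
    exact mul_le_mul_of_nonneg_left hc₂δ hL0.le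
  obtain ⟨M, K, r, hKle, hMeq, hrlen, hrS, hrN, hrsq, hr44, hcj⟩ := hcore (fun _ => 0) (fun _ => (x : ℂ)) V K' hK'K
    hV0.le (by rw [← hLd]; exact hVL) (fun i j hij => absurd (Subsingleton.elim i j) hij)
    (fun _ => by rw [Complex.norm_real, Real.norm_eq_abs]; exact hx)
  obtain ⟨e, he, heS, hde, hNe⟩ := hcj 0
  obtain ⟨N, b, S, Nq, bq, hNle, hb, hbN, hb1, hq1, hq2, hq3⟩ := hphs P hPκ z hz
  rw [← hLd] at hP hPκ hrS heS hde hNe hq2 hq3 hpw hall hbN hMeq hTD hSA hSI hLc ⊢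
  rw [← hll] at hP hPκ hall hbN ⊢
  obtain ⟨l, hl⟩ : ∃ l, l = Real.sqrt ll := ⟨_, rfl⟩
  rw [← hl]
  have hl1 : 1 ≤ l := by rw [hl]; exact Real.one_le_sqrt.2 hLL1'
  have hl2 : l ^ 2 = ll := by rw [hl]; exact Real.sq_sqrt hll0.le
  have hl0 : 0 < l := by linarith
  obtain ⟨Y, hY⟩ : ∃ Y, Y = ⌊L ^ 2⌋₊ := ⟨_, rfl⟩
  obtain ⟨W, hW⟩ : ∃ W, W = ⌊(L ^ 2) ^ K'⌋₊ := ⟨_, rfl⟩
  obtain ⟨X, hX⟩ : ∃ X, X = ⌊T ^ δ⌋₊ := ⟨_, rfl⟩
  rw [← hY, ← hW] at hrS heS hde hNe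
  rw [← hW] at hMeq
  rw [← hX] at hTD
  have hK'1 : 1 ≤ K' := by
    have := hK₀3.trans hK'K
    omega
  have hL2 : 1 < L ^ 2 := by nlinarith
  have hyZ : L ^ 2 ≤ (L ^ 2) ^ K' := le_self_pow₀ hL2.le (by omega)
  have hYW : Y ≤ W := by rw [hY, hW]; exact Nat.floor_mono hyZ
  have hWX : W ≤ X := by rw [hX, hW]; exact Nat.floor_mono hpw
  have hP0 : (0 : ℝ) ≤ P := Nat.cast_nonneg P
  have hPL : (P : ℝ) ≤ L :=
    (le_mul_of_one_le_right hP0 hLL1').trans (hPκ.trans (mul_le_of_le_one_left hL0.le hκ₂1))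
  have hPY : P ≤ Y := by
    rw [hY]
    apply Nat.le_floor
    nlinarith
  have hY1 : 1 ≤ Y := by rw [hY]; exact Nat.le_floor (by push_cast; linarith)
  have hX1 : 1 ≤ X := by omega
  have hXle : (X : ℝ) ≤ T ^ δ := by rw [hX]; exact Nat.floor_le (by positivity)
  have hXT : (X : ℝ) ≤ T := hXle.trans (by
    calc T ^ δ ≤ T ^ (1 : ℝ) := hmono (by linarith)
      _ = T := Real.rpow_one T)
  have hall' : ∀ P' X' : ℕ, X' ≤ X → ∑ p ∈ bigP P' X', (1 : ℝ) / p ≤ (1 + Ca) * l ^ 2 := by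
    intro P' X' h5
    have h6 : (X' : ℝ) ≤ T := le_trans (by exact_mod_cast h5) hXT
    refine (hall P' X' h6).trans ?_
    rw [hl2]
    nlinarith
  -- the weights
  have hbS : ∀ p : ℕ, p ≤ P → ¬ p ∈ bigP Y W := fun p hp h => by
    have := (mem_bP.1 h).2.1
    omega
  have hSP1 : ∀ {N' : ℕ} {b' : ℕ → ℂ}, Bs P N' b' → SP (fun p => ¬ p ∈ bigP Y W) b' := by
    intro N' b' hb'
    have hb1 : SP (fun p => p ≤ P) b' := fun n hn => by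
      obtain ⟨h1, -, h3⟩ := hb' n hn
      exact ⟨by omega, h3⟩
    exact SP_mono hbS hb1
  obtain ⟨N0, hN0⟩ : ∃ N0, N0 = N2 (M * N) (cv r b) := ⟨_, rfl⟩
  have hN0' : N0 = N2 M r * N2 N b := by
    rw [hN0]
    exact N2_cv hrS (hSP1 hb) hrlen hb.len le_rfl
  have hr0 : 0 < N2 M r := by linarith
  have hb0 : 0 < N2 N b := lt_of_lt_of_le (Real.exp_pos _) hbN
  have hN00 : 0 < N0 := by rw [hN0']; positivity
  have hMle : (M : ℝ) ≤ T ^ θ := by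
    rw [hMeq]
    push_cast
    have hZf : (W : ℝ) ≤ (L ^ 2) ^ K' := by rw [hW]; exact Nat.floor_le (by positivity)
    calc (((W : ℝ)) ^ 2) ^ K ≤ (((L ^ 2) ^ K') ^ 2) ^ K := by gcongr
      _ = Real.exp (K * (4 * K' * ll)) := by
          rw [hexpZ, ← pow_mul, ← Real.exp_nat_mul]
          congr 1
          push_cast
          ring
      _ ≤ Real.exp (θ * L) := Real.exp_le_exp.2 (len_cmp hKle hlogK1 hK'le hll0 hLL1' hV0 hVlo hLamV hc₂θ hL0)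
      _ = T ^ θ := by rw [Real.rpow_def_of_pos hT0, ← hLd, mul_comm]
  have hMN : ((M * N : ℕ) : ℝ) ≤ T ^ (2 * θ) := by
    push_cast
    calc (M : ℝ) * N ≤ T ^ θ * T ^ θ := by gcongr
      _ = T ^ (2 * θ) := by rw [← Real.rpow_add hT0]; congr 1; ring
  have hlen : ((X ^ 2 * (M * N) : ℕ) : ℝ) ≤ T ^ θ₂ := by
    rw [Nat.cast_mul]
    push_cast at hMN ⊢
    calc (X : ℝ) ^ 2 * (M * N) ≤ (T ^ δ) ^ 2 * T ^ (2 * θ) := by gcongr
      _ = T ^ (2 * δ + 2 * θ) := by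
          rw [← Real.rpow_natCast, ← Real.rpow_mul hT0.le, ← Real.rpow_add hT0]
          congr 1
          push_cast
          ring
      _ ≤ _ := hmono (by rw [hθ]; linarith)
  have hZS : ∀ N : ℕ, (N : ℝ) ≤ T ^ θ₂ → ∀ b : ℕ → ℂ, ∑ s ∈ ZI d T, ‖dp N b s.im‖ ^ 2 ≤ 2 * L * (T * N2 N b) := by
    intro n hn c
    have h5 := zi_bd (d := d) hT16 (fun N hN b => by
      have := (hSA N hN b).2.2
      rw [← hLd]
      exact this) hn c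
    rw [← hLd] at h5
    exact h5
  obtain ⟨F, hF⟩ : ∃ F : ℂ → ℝ, F = fun s => ‖dp (M * N) (cv r b) s.im‖ ^ 2 := ⟨_, rfl⟩
  have hFt : ∀ s, F s = ‖dp M r s.im‖ ^ 2 * ‖dp N b s.im‖ ^ 2 := by
    intro s
    rw [hF]
    change ‖dp (M * N) (cv r b) s.im‖ ^ 2 = _
    rw [← hD.1 M N r b s.im hrlen hb.len, norm_mul, mul_pow]
  have hF0 : ∀ s, 0 ≤ F s := fun s => by rw [hFt]; positivity
  have hF2 : ∑ s ∈ ZI d T, F s ^ 2 ≤ 2 * L * (T * (2 ^ K * (N2 M r) ^ 2 * N2 N b)) := by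
    have hlen4 : ((M * M * N : ℕ) : ℝ) ≤ T ^ θ₂ := by
      push_cast
      calc (M : ℝ) * M * N ≤ T ^ θ * T ^ θ * T ^ θ := by gcongr
        _ = T ^ (3 * θ) := by rw [← Real.rpow_add hT0, ← Real.rpow_add hT0]; congr 1; ring
        _ ≤ _ := hmono (by rw [hθ]; linarith)
    have h5 := hZS _ hlen4 (cv (cv r r) b)
    rw [N2_cv (SP_cv _ _ _ hrS hrS) (hSP1 hb) (cv_len _ _ _ _ hrlen hrlen) hb.len le_rfl] at h5
    have h6 : ∑ s ∈ ZI d T, F s ^ 2 ≤ ∑ s ∈ ZI d T, ‖dp (M * M * N) (cv (cv r r) b) s.im‖ ^ 2 := by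
      refine Finset.sum_le_sum fun s _ => ?_
      rw [hFt, ← hD.1 (M * M) N _ b s.im (cv_len _ _ _ _ hrlen hrlen) hb.len, ← hD.1 M M r r s.im hrlen hrlen,
        norm_mul, norm_mul]
      have h7 : (‖dp N b s.im‖ ^ 2) ^ 2 ≤ ‖dp N b s.im‖ ^ 2 := by
        have := hb1 s.im
        have h8 : 0 ≤ ‖dp N b s.im‖ ^ 2 := by positivity
        nlinarith
      calc (‖dp M r s.im‖ ^ 2 * ‖dp N b s.im‖ ^ 2) ^ 2 =
            (‖dp M r s.im‖ * ‖dp M r s.im‖) ^ 2 * (‖dp N b s.im‖ ^ 2) ^ 2 := by ring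
        _ ≤ (‖dp M r s.im‖ * ‖dp M r s.im‖) ^ 2 * ‖dp N b s.im‖ ^ 2 := mul_le_mul_of_nonneg_left h7 (by positivity)
        _ = _ := by ring
    refine h6.trans (h5.trans ?_)
    gcongr
  have hNe' : N2 M e ≤ C₁ * l ^ 2 * N2 M r := by
    refine hNe.trans (mul_le_mul_of_nonneg_right ?_ (N2_nn _ _))
    have h5 := hall' Y W hWX
    rw [hC₁]
    linarith
  obtain ⟨A, hA⟩ : ∃ A : ℂ → ℝ, A = fun s => Real.log ‖deriv riemannZeta s‖ - Real.log L := ⟨_, rfl⟩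
  obtain ⟨g, hg⟩ : ∃ g : ℂ → ℝ, g = fun s => gk2 (fun _ => A s - EP X s.im) l 0 (x : ℂ) P Y W X s.im := ⟨_, rfl⟩
  have hgd : ∀ s, |AA P T s - x| ≤ g s := by
    intro s
    rw [hg]
    have h5 := gz_ge hl0 (x : ℂ) hPY hYW hWX s.im (A s)
    rw [Complex.ofReal_re] at h5
    refine le_trans (le_of_eq ?_) h5
    rw [hA]
    unfold AA
    rw [← hLd]
  have hg0 : ∀ s, 0 ≤ g s := fun s => (abs_nonneg _).trans (hgd s)
  have hgi : ∑ s ∈ ZI d T, g s * F s ≤ Cg * l * (L * (T * N0)) := by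
    rw [hg, hF, hN0, hCg]
    refine gz_int hT16 hl1 hL0.le (x : ℂ) hZS hYW hWX (fun b' => ?_) hC₀ hrlen hrS he heS (fun t => ?_) hrsq hNe' hb hPY
      hlen (hYW.trans hWX) hall' hX1
    · have h5 := (hTD (M * N) (hMN.trans (hmono (by rw [hθ]; linarith))) b').1
      rw [hA]
      exact h5
    · rw [hde t, sS_uu]
  obtain ⟨hf, hhf⟩ : ∃ hf : ℕ → ℂ → ℝ, hf = fun q s => 1 / L ^ 4 * (‖dp M r s.im‖ ^ 2 * ‖dp (Nq q) (bq q) s.im‖ ^ 2) :=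
    ⟨_, rfl⟩
  have hhS : ∑ q ∈ S, ∑ s ∈ ZI d T, hf q s ≤ c₀ / 8 * (L * (T * N0)) := by
    have h5 : ∀ q ∈ S, ∑ s ∈ ZI d T, hf q s ≤ 2 * L * (T * N2 M r) * (1 / L ^ 4 * N2 (Nq q) (bq q)) := by
      intro q hq
      rw [hhf]
      change ∑ s ∈ ZI d T, 1 / L ^ 4 * (‖dp M r s.im‖ ^ 2 * ‖dp (Nq q) (bq q) s.im‖ ^ 2) ≤ _
      rw [← Finset.mul_sum]
      have h6 : ((M * Nq q : ℕ) : ℝ) ≤ T ^ θ₂ := by
        push_cast
        calc (M : ℝ) * Nq q ≤ T ^ θ * T ^ θ := by gcongr; exact (hq1 q hq).1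
          _ = T ^ (2 * θ) := by rw [← Real.rpow_add hT0]; congr 1; ring
          _ ≤ _ := hmono (by rw [hθ]; linarith)
      have h7 := hZS _ h6 (cv r (bq q))
      rw [N2_cv hrS (hSP1 (hq1 q hq).2) hrlen (hq1 q hq).2.len le_rfl] at h7
      have h8 : ∑ s ∈ ZI d T, ‖dp M r s.im‖ ^ 2 * ‖dp (Nq q) (bq q) s.im‖ ^ 2 =
          ∑ s ∈ ZI d T, ‖dp (M * Nq q) (cv r (bq q)) s.im‖ ^ 2 := by
        refine Finset.sum_congr rfl fun s _ => ?_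
        rw [← hD.1 M (Nq q) r (bq q) s.im hrlen (hq1 q hq).2.len, norm_mul, mul_pow]
      rw [h8]
      calc 1 / L ^ 4 * ∑ s ∈ ZI d T, ‖dp (M * Nq q) (cv r (bq q)) s.im‖ ^ 2 ≤
          1 / L ^ 4 * (2 * L * (T * (N2 M r * N2 (Nq q) (bq q)))) := mul_le_mul_of_nonneg_left h7 (by positivity)
        _ = _ := by ring
    refine (Finset.sum_le_sum h5).trans ?_
    rw [← Finset.mul_sum]
    calc 2 * L * (T * N2 M r) * ∑ q ∈ S, 1 / L ^ 4 * N2 (Nq q) (bq q) ≤ 2 * L * (T * N2 M r) * (c₀ / 16 * N2 N b) :=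
          mul_le_mul_of_nonneg_left hq3 (by positivity)
      _ = c₀ / 8 * (L * (T * N0)) := by rw [hN0']; ring
  have hlam0 : (0 : ℝ) < 8 * 2 ^ K * N2 M r / c₀ := by positivity
  obtain ⟨E, hE⟩ : ∃ E, E = ZE (C₅ * l) ε P z x d T := ⟨_, rfl⟩
  have hmk := mkz (S := ZI d T) (E := E) (F := F) (g := g) (h := hf) (Q := S) (c := 1 / (C₅ * l))
    (lam := 8 * 2 ^ K * N2 M r / c₀) (by rw [hE]; unfold ZE; exact Finset.filter_subset _ _) hlam0 hF2 hgi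
    (by positivity) (fun s => mul_nonneg (hg0 s) (hF0 s)) (fun q s => by rw [hhf]; positivity) hhS (by
      intro s hs hsE
      by_cases hp : ∃ p : ℕ, p.Prime ∧ p ≤ P ∧ ε < ‖(p : ℂ) ^ (s.im * I) - z p‖
      · right
        obtain ⟨p, hp1, hp2, hp3⟩ := hp
        obtain ⟨q, hq, hq5⟩ := hq2 s.im ⟨p, hp1, hp2, lt_of_le_of_lt hεε hp3⟩
        refine ⟨q, hq, ?_⟩
        rw [hFt, hhf]
        change ‖dp M r s.im‖ ^ 2 * ‖dp N b s.im‖ ^ 2 ≤ 1 / L ^ 4 * (‖dp M r s.im‖ ^ 2 * ‖dp (Nq q) (bq q) s.im‖ ^ 2)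
        calc ‖dp M r s.im‖ ^ 2 * ‖dp N b s.im‖ ^ 2 ≤ ‖dp M r s.im‖ ^ 2 * (1 / L ^ 4 * ‖dp (Nq q) (bq q) s.im‖ ^ 2) :=
              mul_le_mul_of_nonneg_left hq5 (by positivity)
          _ = _ := by ring
      · left
        push Not at hp
        have h5 : C₅ * l < g s := by
          by_contra h6
          push Not at h6
          apply hsE
          rw [hE]
          unfold ZE
          rw [Finset.mem_filter]
          exact ⟨hs, (hgd s).trans h6, hp⟩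
        have h6 : 1 ≤ 1 / (C₅ * l) * g s := by
          rw [one_div, ← div_eq_inv_mul, one_le_div (by positivity)]
          exact h5.le
        calc F s ≤ 1 / (C₅ * l) * g s * F s := le_mul_of_one_le_left (hF0 s) h6
          _ = _ := by ring)
  have hlow : c₀ * (L * (T * N0)) ≤ ∑ s ∈ ZI d T, F s := by
    have h5 := hSI (M * N) (hMN.trans (hmono (by rw [hθ]; linarith))) (cv r b)
    rw [← hN0] at h5
    rw [hF]
    refine le_trans (le_of_eq ?_) h5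
    rw [hc₀]
    ring
  obtain ⟨U, hU⟩ : ∃ U, U = L * (T * N0) := ⟨_, rfl⟩
  have hU0 : 0 < U := by rw [hU]; positivity
  have h6 : 1 / (C₅ * l) * (Cg * l * (L * (T * N0))) = c₀ / 8 * U := by
    rw [hC₅, ← hU]
    field_simp
  have h7 : 1 / (2 * (8 * 2 ^ K * N2 M r / c₀)) * (2 * L * (T * (2 ^ K * (N2 M r) ^ 2 * N2 N b))) = c₀ / 8 * U := by
    rw [hU, hN0']
    field_simp
  rw [h6, h7, ← hU] at hmk
  rw [← hU] at hlow
  have h8 : c₀ / 2 * U ≤ 8 * 2 ^ K * N2 M r / c₀ / 2 * (E.card : ℝ) := by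
    have : 0 < c₀ * U := by positivity
    linarith
  have hcard : (0 : ℝ) ≤ E.card := Nat.cast_nonneg _
  have h9 : T * N2 N b ≤ 32 * 2 ^ K * (E.card : ℝ) := by
    have h10 : c₀ ^ 2 * U ≤ 8 * 2 ^ K * N2 M r * (E.card : ℝ) := by
      have h11 : c₀ ^ 2 * U = 2 * c₀ * (c₀ / 2 * U) := by ring
      have h12 : 8 * 2 ^ K * N2 M r * (E.card : ℝ) = 2 * c₀ * (8 * 2 ^ K * N2 M r / c₀ / 2 * (E.card : ℝ)) := by
        field_simp
      rw [h11, h12]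
      exact mul_le_mul_of_nonneg_left h8 (by positivity)
    have h11 : 1 ≤ c₀ ^ 2 * L := by
      rw [div_le_iff₀ (by positivity)] at hLc
      linarith
    have h12 : T * N0 ≤ c₀ ^ 2 * U := by
      rw [hU]
      calc T * N0 = 1 * (T * N0) := (one_mul _).symm
        _ ≤ (c₀ ^ 2 * L) * (T * N0) := mul_le_mul_of_nonneg_right h11 (by positivity)
        _ = _ := by ring
    rw [hN0'] at h12
    have h13 : N2 M r * (T * N2 N b) ≤ N2 M r * (32 * 2 ^ K * (E.card : ℝ)) := by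
      calc N2 M r * (T * N2 N b) = T * (N2 M r * N2 N b) := by ring
        _ ≤ 8 * 2 ^ K * N2 M r * (E.card : ℝ) := h12.trans h10
        _ ≤ 32 * 2 ^ K * N2 M r * (E.card : ℝ) := by gcongr; norm_num
        _ = _ := by ring
    exact le_of_mul_le_mul_left h13 hr0
  have hsub : E ⊆ ZE (C₆ * l) ε P z x d T := by
    rw [hE]
    have h10 : C₅ * l ≤ C₆ * l := mul_le_mul_of_nonneg_right hC₆ hl0.le
    unfold ZE
    intro s hs
    rw [Finset.mem_filter] at hs ⊢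
    exact ⟨hs.1, hs.2.1.trans h10, hs.2.2⟩
  have hcc : (E.card : ℝ) ≤ ((ZE (C₆ * l) ε P z x d T).card : ℝ) := by exact_mod_cast Finset.card_le_card hsub
  refine le_trans ?_ hcc
  rw [← hLam]
  exact fin_cmp hT0 hcard hbN h9 hKle hlogK1 hlogLam hlogLam0 hVlog hC₆a hC₆b hP0 hLL1' (by positivity)
    (by rw [hll, hLd]; exact hLLε)

end

end Run7.h311.OL
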