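import Pool.Agent.Run7.h311.OL.Fin2
import Pool.Agent.Run7.h311.LW.ZFin
import Pool.Agent.W354.ZP.Num

set_option autoImplicit false

/-! The derivative at the isolated simple zeros, relative to the resonator times a polynomial on small primes. -/

namespace Run7.h311.OL

open Filter Topology MeasureTheory Complex
open Pool.Agent.Q97.UM Pool.Agent.Q14.UM Run7.h311.LW Run7.h311.OM Run7.h311.OA
open Pool.Agent.Q98.UM (S3 S3_nonneg)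

noncomputable section

/-- the majorant at a point -/
theorem gz_gen {l α : ℝ} (hl : 0 < l) (z : ℂ) {P Y W X : ℕ} (h1 : P ≤ Y) (h2 : Y ≤ W) (h3 : W ≤ X) (t A : ℝ) :
    |A - EP P (t + α) - z.re| ≤ gk2 (fun _ => A - EP X (t + α)) l α z P Y W X t := by
  have e1 := abs_le.1 (EP_one α h1 t)
  have e2 := abs_le.1 (EP_one α h2 t)
  have e3 := abs_le.1 (EP_one α h3 t)
  have b1 := abs_le.1 ((Complex.abs_re_le_norm (dp Y (uu P Y (aj α)) t)).trans (amgm hl))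
  have b2 := abs_le.1 ((Complex.abs_re_le_norm (dp (Y ^ 2) (u2 P Y (aj (2 * α))) t)).trans (amgm hl))
  have b3 := abs_le.1 ((Complex.abs_re_le_norm (dp W (uu Y W (aj α)) t - z)).trans (amgm hl))
  rw [Complex.sub_re] at b3
  have b4 := abs_le.1 ((Complex.abs_re_le_norm (dp (W ^ 2) (u2 Y W (aj (2 * α))) t)).trans (amgm hl))
  have b5 := abs_le.1 ((Complex.abs_re_le_norm (dp X (uu W X (aj α)) t)).trans (amgm hl))
  have b6 := abs_le.1 ((Complex.abs_re_le_norm (dp (X ^ 2) (u2 W X (aj (2 * α))) t)).trans (amgm hl))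
  have b7 := abs_le.1 (le_refl |A - EP X (t + α)|)
  unfold gk2
  rw [abs_le]
  constructor
  · linarith [e1.1, e2.1, e3.1, e1.2, e2.2, e3.2, b1.1, b2.1, b3.1, b4.1, b5.1, b6.1, b7.1]
  · linarith [e1.1, e2.1, e3.1, e1.2, e2.2, e3.2, b1.2, b2.2, b3.2, b4.2, b5.2, b6.2, b7.2]

theorem gz_ge {l : ℝ} (hl : 0 < l) (z : ℂ) {P Y W X : ℕ} (h1 : P ≤ Y) (h2 : Y ≤ W) (h3 : W ≤ X) (t A : ℝ) :
    |A - EP P t - z.re| ≤ gk2 (fun _ => A - EP X t) l 0 z P Y W X t := by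
  have h := gz_gen (α := 0) hl z h1 h2 h3 t A
  rw [add_zero] at h
  exact h

/-- the mean of the majorant -/
theorem gz_int {T l L θ C₀ C₁ C₂ : ℝ} (hT : 16 ≤ T) (hl : 1 ≤ l) (hL : 0 ≤ L) (z : ℂ) {P Y W X M N : ℕ}
    {S : Finset ℂ} (hS : ∀ N : ℕ, (N : ℝ) ≤ T ^ θ → ∀ b : ℕ → ℂ, ∑ s ∈ S, ‖dp N b s.im‖ ^ 2 ≤ 2 * L * (T * N2 N b))
    (h2 : Y ≤ W) (hWX : W ≤ X) {A : ℂ → ℝ} (hTHP : ∀ b : ℕ → ℂ,
      ∑ s ∈ S, |A s - EP X s.im| ^ 1 * ‖dp (M * N) b s.im‖ ^ 2 ≤ C₀ * L * (T * N2 (M * N) b)) (hC₀ : 0 ≤ C₀)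
    {r e b : ℕ → ℂ} (hr : ∀ m, M < m → r m = 0) (hrS : SP (fun p => p ∈ bigP Y W) r) (he : ∀ m, M < m → e m = 0)
    (heS : SP (fun p => p ∈ bigP Y W) e) (hde : ∀ t : ℝ, dp M e t = (dp W (uu Y W (aj 0)) t - z) * dp M r t)
    (hrsq : ∀ m, r m ≠ 0 → Squarefree m) (hNe : N2 M e ≤ C₁ * l ^ 2 * N2 M r) (hb : Bs P N b) (hPY : P ≤ Y)
    (hlen : ((X ^ 2 * (M * N) : ℕ) : ℝ) ≤ T ^ θ) (hYX : Y ≤ X)
    (hall : ∀ P' X' : ℕ, X' ≤ X → ∑ p ∈ bigP P' X', (1 : ℝ) / p ≤ C₂ * l ^ 2) (hX1 : 1 ≤ X) :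
    ∑ s ∈ S, gk2 (fun _ => A s - EP X s.im) l 0 z P Y W X s.im * ‖dp (M * N) (cv r b) s.im‖ ^ 2 ≤
      (C₀ + 2 * (12 * S3 + 6) + 2 * (2 * C₂ + |C₁| + 2)) * l * (L * (T * N2 (M * N) (cv r b))) := by
  have hD := Pool.Agent.Q84.UM.t_DPM
  have hS3 := S3_nonneg
  have hl0 : 0 < l := by linarith
  obtain ⟨f, hf⟩ : ∃ f, f = cv r b := ⟨_, rfl⟩
  have hbS : ∀ p : ℕ, p ≤ P → ¬ p ∈ bigP Y W := fun p hp h => by
    have := (mem_bP.1 h).2.1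
    omega
  have hb1 : SP (fun p => p ≤ P) b := fun n hn => by
    obtain ⟨h1, -, h3⟩ := hb n hn
    exact ⟨by omega, h3⟩
  have hbS' : SP (fun p => ¬ p ∈ bigP Y W) b := SP_mono hbS hb1
  have hflen : ∀ m, M * N < m → f m = 0 := by rw [hf]; exact cv_len _ _ _ _ hr hb.len
  have hfS : SP (fun p => p ≤ P ∨ p ∈ bigP Y W) f := by
    rw [hf]
    exact SP_cv _ _ _ (SP_mono (fun p hp => Or.inr hp) hrS) (SP_mono (fun p hp => Or.inl hp) hb1)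
  have hN2f : N2 (M * N) f = N2 M r * N2 N b := by
    rw [hf]
    exact N2_cv hrS hbS' hr hb.len le_rfl
  have hX2 : 1 ≤ X ^ 2 := Nat.one_le_pow _ _ hX1
  have hXX : X ≤ X ^ 2 := Nat.le_self_pow (by norm_num) X
  have hlen' : ∀ k : ℕ, k ≤ X ^ 2 → ((k * (M * N) : ℕ) : ℝ) ≤ T ^ θ := by
    intro k hk
    refine le_trans ?_ hlen
    exact_mod_cast Nat.mul_le_mul_right _ hk
  have hT0 : 0 < T := by linarith
  have hle : T ≤ 2 * T := by linarith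
  obtain ⟨N0, hN0⟩ : ∃ N0, N0 = N2 (M * N) f := ⟨_, rfl⟩
  have hN00 : 0 ≤ N0 := by rw [hN0]; exact N2_nn _ _
  have hLTN : 0 ≤ L * (T * N0) := by positivity
  have hSN : ∀ (k : ℕ) (u : ℕ → ℂ) (B : ℝ), k ≤ X ^ 2 * (M * N) → N2 k u ≤ B → (∑ s ∈ S, ‖dp k u s.im‖ ^ 2) ≤
      2 * L * (T * B) := by
    intro k u B hk hB
    refine (hS k (le_trans (by exact_mod_cast hk) hlen) u).trans ?_
    gcongr
  have hMN1 : M * N ≤ X ^ 2 * (M * N) := Nat.le_mul_of_pos_left _ hX2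
  have mF : ∑ s ∈ S, ‖dp (M * N) f s.im‖ ^ 2 ≤ 2 * (L * (T * N0)) := by
    have := hSN (M * N) f N0 hMN1 (le_of_eq hN0.symm)
    linarith
  have mA := hTHP f
  rw [← hN0] at mA
  have pz : ∀ {k : ℕ} {u : ℕ → ℂ} {B : ℝ}, k ≤ X ^ 2 → (∀ n, k < n → u n = 0) → SP (fun p => ¬ (p ≤ P ∨ p ∈ bigP Y W)) u →
      N2 k u ≤ B → ∑ s ∈ S, ‖dp k u s.im‖ ^ 2 * ‖dp (M * N) f s.im‖ ^ 2 ≤ 2 * L * (T * (B * N0)) := by
    intro k u B hk hu hSPu hB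
    have e1 : ∀ t : ℝ, ‖dp k u t‖ ^ 2 * ‖dp (M * N) f t‖ ^ 2 = ‖dp (M * N * k) (cv f u) t‖ ^ 2 := by
      intro t
      rw [← hD.1 (M * N) k f u t hflen hu, norm_mul, mul_pow, mul_comm]
    simp_rw [e1]
    refine hSN _ _ _ ?_ ?_
    · rw [mul_comm]
      exact Nat.mul_le_mul_right _ hk
    · rw [N2_cv hfS hSPu hflen hu le_rfl, ← hN0, mul_comm]
      exact mul_le_mul_of_nonneg_right hB hN00
  have hC₂ : 0 ≤ C₂ * l ^ 2 := le_trans (by positivity) (hall 0 X le_rfl)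
  -- the squares
  have hX2' : X ≤ X ^ 2 := hXX
  have sp1 : ∀ {A' B' : ℕ}, (∀ p, p ∈ bigP A' B' → ¬ (p ≤ P ∨ p ∈ bigP Y W)) → ∀ {u : ℕ → ℂ},
      SP (fun p => p ∈ bigP A' B') u → SP (fun p => ¬ (p ≤ P ∨ p ∈ bigP Y W)) u := fun h _ hu => SP_mono h hu
  have dPY : ∀ p, p ∈ bigP P Y → ¬ (p ≤ P ∨ p ∈ bigP Y W) := by
    rintro p hp (h | h)
    · have := (mem_bP.1 hp).2.1; omega
    · have h5 := (mem_bP.1 hp).2.2
      have h6 := (mem_bP.1 h).2.1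
      omega
  have dWX : ∀ p, p ∈ bigP W X → ¬ (p ≤ P ∨ p ∈ bigP Y W) := by
    rintro p hp (h | h)
    · have := (mem_bP.1 hp).2.1; omega
    · have h5 := (mem_bP.1 hp).2.1
      have h6 := (mem_bP.1 h).2.2
      omega
  have nu : ∀ A' B' : ℕ, B' ≤ X → N2 B' (uu A' B' (aj 0)) ≤ C₂ * l ^ 2 := by
    intro A' B' hB'
    rw [uu_N2]
    refine le_trans (Finset.sum_le_sum fun p _ => ?_) (hall A' B' hB')
    have : ‖aj 0 p‖ ^ 2 ≤ 1 := pow_le_one₀ (norm_nonneg _) (aj_le 0 p)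
    gcongr
  have nu2 : ∀ A' B' : ℕ, N2 (B' ^ 2) (u2 A' B' (aj (2 * 0))) ≤ 1 / 2 := fun A' B' =>
    (u2_N2 A' B' (aj_le (2 * 0))).trans (by norm_num)
  have m1 := pz (k := Y) (u := uu P Y (aj 0)) (by omega) (uu_qs P Y (aj 0)).len (sp1 dPY (uu_sp2 P Y (aj 0)))
    (nu P Y hYX)
  have m2 := pz (k := Y ^ 2) (u := u2 P Y (aj (2 * 0))) (Nat.pow_le_pow_left hYX 2) (u2_len P Y (aj (2 * 0)))
    (sp1 dPY (u2_sp2 P Y (aj (2 * 0)))) (nu2 P Y)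
  have m4 := pz (k := X) (u := uu W X (aj 0)) hXX (uu_qs W X (aj 0)).len (sp1 dWX (uu_sp2 W X (aj 0)))
    (nu W X le_rfl)
  have m5 := pz (k := X ^ 2) (u := u2 W X (aj (2 * 0))) le_rfl (u2_len W X (aj (2 * 0)))
    (sp1 dWX (u2_sp2 W X (aj (2 * 0)))) (nu2 W X)
  have m3 : ∑ s ∈ S, ‖dp W (uu Y W (aj 0)) s.im - z‖ ^ 2 * ‖dp (M * N) f s.im‖ ^ 2 ≤
      2 * L * (T * (|C₁| * l ^ 2 * N0)) := by
    have h6 : ∀ t : ℝ, ‖dp W (uu Y W (aj 0)) t - z‖ ^ 2 * ‖dp (M * N) f t‖ ^ 2 = ‖dp (M * N) (cv e b) t‖ ^ 2 := by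
      intro t
      rw [hf, ← hD.1 M N r b t hr hb.len, ← hD.1 M N e b t he hb.len, hde t, norm_mul, norm_mul, norm_mul]
      ring
    simp_rw [h6]
    refine hSN _ _ _ hMN1 ?_
    rw [N2_cv heS hbS' he hb.len le_rfl, hN0, hN2f, ← mul_assoc]
    refine mul_le_mul_of_nonneg_right (hNe.trans ?_) (N2_nn _ _)
    exact mul_le_mul_of_nonneg_right (mul_le_mul_of_nonneg_right (le_abs_self _) (by positivity)) (N2_nn _ _)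
  have m6 : ∑ s ∈ S, ‖dp (W ^ 2) (u2 Y W (aj (2 * 0))) s.im‖ ^ 2 * ‖dp (M * N) f s.im‖ ^ 2 ≤
      2 * L * (T * (1 / 2 * N0)) := by
    have hslen := cv_len _ _ _ _ (u2_len Y W (aj (2 * 0))) hr
    have hsSP : SP (fun p => p ∈ bigP Y W) (cv (u2 Y W (aj (2 * 0))) r) := SP_cv _ _ _ (u2_sp2 Y W (aj (2 * 0))) hrS
    have hWX' : W ^ 2 ≤ X ^ 2 := Nat.pow_le_pow_left hWX 2
    have h6 : ∀ t : ℝ, ‖dp (W ^ 2) (u2 Y W (aj (2 * 0))) t‖ ^ 2 * ‖dp (M * N) f t‖ ^ 2 =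
        ‖dp (W ^ 2 * M * N) (cv (cv (u2 Y W (aj (2 * 0))) r) b) t‖ ^ 2 := by
      intro t
      rw [hf, ← hD.1 M N r b t hr hb.len, ← hD.1 (W ^ 2 * M) N _ b t hslen hb.len,
        ← hD.1 (W ^ 2) M _ r t (u2_len Y W (aj (2 * 0))) hr, norm_mul, norm_mul, norm_mul]
      ring
    simp_rw [h6]
    refine hSN _ _ _ ?_ ?_
    · rw [mul_assoc]
      exact Nat.mul_le_mul_right _ hWX'
    · rw [N2_cv hsSP hbS' hslen hb.len le_rfl, hN0, hN2f, ← mul_assoc]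
      refine mul_le_mul_of_nonneg_right ((sq_orth hrsq hr).trans ?_) (N2_nn _ _)
      exact mul_le_mul_of_nonneg_right (nu2 Y W) (N2_nn _ _)
  rw [← hf, ← hN0]
  have e0 : ∀ s ∈ S, gk2 (fun _ => A s - EP X s.im) l 0 z P Y W X s.im * ‖dp (M * N) f s.im‖ ^ 2 =
      |A s - EP X s.im| ^ 1 * ‖dp (M * N) f s.im‖ ^ 2 + ((12 * S3 + 6 * l) * ‖dp (M * N) f s.im‖ ^ 2 +
      1 / l * (‖dp Y (uu P Y (aj 0)) s.im‖ ^ 2 * ‖dp (M * N) f s.im‖ ^ 2 +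
        (‖dp (Y ^ 2) (u2 P Y (aj (2 * 0))) s.im‖ ^ 2 * ‖dp (M * N) f s.im‖ ^ 2 +
        (‖dp W (uu Y W (aj 0)) s.im - z‖ ^ 2 * ‖dp (M * N) f s.im‖ ^ 2 +
        (‖dp X (uu W X (aj 0)) s.im‖ ^ 2 * ‖dp (M * N) f s.im‖ ^ 2 +
        (‖dp (X ^ 2) (u2 W X (aj (2 * 0))) s.im‖ ^ 2 * ‖dp (M * N) f s.im‖ ^ 2 +
        ‖dp (W ^ 2) (u2 Y W (aj (2 * 0))) s.im‖ ^ 2 * ‖dp (M * N) f s.im‖ ^ 2)))))) := by
    intro s _
    unfold gk2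
    ring
  rw [Finset.sum_congr rfl e0, Finset.sum_add_distrib, Finset.sum_add_distrib, ← Finset.mul_sum, ← Finset.mul_sum,
    Finset.sum_add_distrib, Finset.sum_add_distrib, Finset.sum_add_distrib, Finset.sum_add_distrib,
    Finset.sum_add_distrib]
  have hF0 : 0 ≤ ∑ s ∈ S, ‖dp (M * N) f s.im‖ ^ 2 := Finset.sum_nonneg fun s _ => by positivity
  have k1 : (12 * S3 + 6 * l) * ∑ s ∈ S, ‖dp (M * N) f s.im‖ ^ 2 ≤ (12 * S3 + 6) * l * (2 * (L * (T * N0))) := by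
    have h5 : 12 * S3 + 6 * l ≤ (12 * S3 + 6) * l := by nlinarith
    calc (12 * S3 + 6 * l) * ∑ s ∈ S, ‖dp (M * N) f s.im‖ ^ 2 ≤
        ((12 * S3 + 6) * l) * ∑ s ∈ S, ‖dp (M * N) f s.im‖ ^ 2 := mul_le_mul_of_nonneg_right h5 hF0
      _ ≤ _ := mul_le_mul_of_nonneg_left mF (by positivity)
  obtain ⟨U, hU⟩ : ∃ U, U = L * (T * N0) := ⟨_, rfl⟩
  rw [← hU] at hLTN k1 ⊢
  have k2 : 1 / l * ((∑ s ∈ S, ‖dp Y (uu P Y (aj 0)) s.im‖ ^ 2 * ‖dp (M * N) f s.im‖ ^ 2) +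
      ((∑ s ∈ S, ‖dp (Y ^ 2) (u2 P Y (aj (2 * 0))) s.im‖ ^ 2 * ‖dp (M * N) f s.im‖ ^ 2) +
      ((∑ s ∈ S, ‖dp W (uu Y W (aj 0)) s.im - z‖ ^ 2 * ‖dp (M * N) f s.im‖ ^ 2) +
      ((∑ s ∈ S, ‖dp X (uu W X (aj 0)) s.im‖ ^ 2 * ‖dp (M * N) f s.im‖ ^ 2) +
      ((∑ s ∈ S, ‖dp (X ^ 2) (u2 W X (aj (2 * 0))) s.im‖ ^ 2 * ‖dp (M * N) f s.im‖ ^ 2) +
      (∑ s ∈ S, ‖dp (W ^ 2) (u2 Y W (aj (2 * 0))) s.im‖ ^ 2 * ‖dp (M * N) f s.im‖ ^ 2)))))) ≤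
      2 * (2 * C₂ + |C₁| + 2) * l * U := by
    have h5 : 1 / l * (2 * (C₂ * l ^ 2 * U) + (2 * (1 / 2 * U) + (2 * (|C₁| * l ^ 2 * U) +
        (2 * (C₂ * l ^ 2 * U) + (2 * (1 / 2 * U) + 2 * (1 / 2 * U)))))) =
        2 * (2 * C₂ + |C₁|) * l * U + 3 * (1 / l) * U := by
      field_simp
      ring
    have h6 : 3 * (1 / l) * U ≤ 4 * l * U := by
      have h7 : 1 / l ≤ l := by
        rw [div_le_iff₀ hl0]
        nlinarith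
      have h8 : 3 * (1 / l) ≤ 4 * l := by linarith
      exact mul_le_mul_of_nonneg_right h8 hLTN
    have n1 : 2 * L * (T * (C₂ * l ^ 2 * N0)) = 2 * (C₂ * l ^ 2 * U) := by rw [hU]; ring
    have n2 : 2 * L * (T * (1 / 2 * N0)) = 2 * (1 / 2 * U) := by rw [hU]; ring
    have n3 : 2 * L * (T * (|C₁| * l ^ 2 * N0)) = 2 * (|C₁| * l ^ 2 * U) := by rw [hU]; ring
    rw [n1] at m1 m4
    rw [n2] at m2 m5 m6
    rw [n3] at m3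
    refine (mul_le_mul_of_nonneg_left (add_le_add m1 (add_le_add m2 (add_le_add m3 (add_le_add m4 (add_le_add m5 m6)))))
      (by positivity : 0 ≤ 1 / l)).trans ?_
    rw [h5]
    linarith
  have k0 : C₀ * L * (T * N0) ≤ C₀ * l * U := by
    rw [hU]
    calc C₀ * L * (T * N0) = C₀ * (L * (T * N0)) * 1 := by ring
      _ ≤ C₀ * (L * (T * N0)) * l := mul_le_mul_of_nonneg_left hl (mul_nonneg hC₀ (by rw [← hU]; exact hLTN))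
      _ = _ := by ring
  linarith

end

end Run7.h311.OL
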